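import Mathlib

/-!
# Definitions for the uniform bound for `x ^ d + c` over number fields
-/

namespace Pool.Agent.MP90787a.MW

open Height IsDedekindDomain NumberField

/-- The map `y ↦ y ^ d + c`. -/
def F {K : Type*} [Field K] (d : ℕ) (c : K) : K → K := fun y => y ^ d + c

/-- The preperiodic points of `y ↦ y ^ d + c` in `K`. -/
def PrePer {K : Type*} [Field K] (d : ℕ) (c : K) : Set K :=
  {x | ∃ i j : ℕ, i < j ∧ (F d c)^[i] x = (F d c)^[j] x}

/-- The periodic points of `y ↦ y ^ d + c` in `K`. -/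
def Per {K : Type*} [Field K] (d : ℕ) (c : K) : Set K :=
  {x | ∃ n : ℕ, 0 < n ∧ (F d c)^[n] x = x}

/-- The curve `y² = (x - e 0)(x - e 1)(x - e 2)`. -/
def We {K : Type*} [Field K] (e : Fin 3 → K) : WeierstrassCurve.Affine K :=
  ⟨0, -(e 0 + e 1 + e 2), 0, e 0 * e 1 + e 0 * e 2 + e 1 * e 2, -(e 0 * e 1 * e 2)⟩

/-- The x-coordinate of a point (`0` for the point at infinity). -/
noncomputable def xc {K : Type*} [Field K] {W : WeierstrassCurve.Affine K} : W.Point → K
  | .zero => 0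
  | .some x _ _ => x

/-- The projective coordinate `s` for the cubic case: it sends `z 0, z 1, z 2` to `1, -1, ∞`. -/
def sThree {K : Type*} [Field K] (z : Fin 3 → K) (t : K) : K :=
  1 + 2 * ((z 1 - z 2) / (z 0 - z 1)) * ((t - z 0) / (t - z 2))

/-- The roots of the Legendre cubic for the quadratic case. -/
def eTwo {K : Type*} [Field K] (z : Fin 4 → K) : Fin 3 → K :=
  ![1 / (z 0 - z 3), 1 / (z 1 - z 3), 1 / (z 2 - z 3)]

/-- Two points `x, y` are controlled (for the exponents `d` and `q`). -/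
def Ctrl {K : Type*} [Field K] [NumberField K] (d q : ℕ) (x y : K) : Prop :=
  x ≠ 0 ∧ y ≠ 0 ∧ x ^ d ≠ y ^ d ∧ ∀ η η' : K, η ^ d = 1 → η' ^ d = 1 → η ≠ 1 → η' ≠ 1 →
    ∀ v : HeightOneSpectrum (𝓞 K), v.valuation K (d : K) = 1 →
      ∃ g : WithZero (Multiplicative ℤ), v.valuation K ((x - η * y) / (x - η' * y)) = g ^ q

end Pool.Agent.MP90787a.MW
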