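import Mathlib
import Pool.Agent.Lib.MP_90787a_nt.MW.Defs

/-!
# Summation of local bounds, and the height of preperiodic points
-/

namespace Pool.Agent.MP90787a.MW

open Height IsDedekindDomain NumberField Real AdmissibleAbsValues Function

theorem finite_posLog {L : Type*} [Field L] [AdmissibleAbsValues L] (y : L) :
    {v : nonarchAbsVal (K := L) | log⁺ (v.1 y) ≠ 0}.Finite := by
  rcases eq_or_ne y 0 with rfl | hy
  · simp
  · have h := hasFiniteMulSupport (K := L) hy
    refine Set.Finite.subset h ?_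
    intro v hv
    rw [Function.mem_mulSupport]
    intro h1
    apply hv
    rw [h1]
    simp

/-- Summing local inequalities over all places. -/
theorem sum_bound {L : Type*} [Field L] [AdmissibleAbsValues L] {ι : Type*} (s : Finset ι)
    (g : ι → L) (c : L) (κ : ℝ) (Cv : AbsoluteValue L ℝ → ℝ)
    (hCv : {v : nonarchAbsVal (K := L) | Cv v.1 ≠ 0}.Finite)
    (h : ∀ v : AbsoluteValue L ℝ, (v ∈ archAbsVal (K := L) ∨ v ∈ nonarchAbsVal (K := L)) →
      κ * log⁺ (v c) - Cv v ≤ ∑ i ∈ s, log⁺ (v (g i))) :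
    κ * logHeight₁ c - (((archAbsVal (K := L)).map Cv).sum +
      ∑ᶠ v : nonarchAbsVal (K := L), Cv v.1) ≤ ∑ i ∈ s, logHeight₁ (g i) := by
  classical
  simp only [Height.logHeight₁_eq]
  rw [Finset.sum_add_distrib]
  have h1 : ∑ i ∈ s, ((archAbsVal (K := L)).map fun v => log⁺ (v (g i))).sum =
      ((archAbsVal (K := L)).map fun v => ∑ i ∈ s, log⁺ (v (g i))).sum := by
    have := Multiset.sum_map_sum_map s.1 (archAbsVal (K := L))
      (f := fun i v => log⁺ (v (g i)))
    exact this
  -- the finite set of relevant nonarchimedean places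
  have hfin : ({v : nonarchAbsVal (K := L) | Cv v.1 ≠ 0} ∪
      ({v : nonarchAbsVal (K := L) | log⁺ (v.1 c) ≠ 0} ∪
        ⋃ i ∈ s, {v : nonarchAbsVal (K := L) | log⁺ (v.1 (g i)) ≠ 0})).Finite := by
    refine hCv.union ((finite_posLog c).union ?_)
    exact Set.Finite.biUnion s.finite_toSet fun i _ => finite_posLog (g i)
  obtain ⟨T, hT⟩ : ∃ T : Finset (nonarchAbsVal (K := L)), ({v : nonarchAbsVal (K := L) |
      Cv v.1 ≠ 0} ∪ ({v : nonarchAbsVal (K := L) | log⁺ (v.1 c) ≠ 0} ∪
        ⋃ i ∈ s, {v : nonarchAbsVal (K := L) | log⁺ (v.1 (g i)) ≠ 0})) ⊆ ↑T :=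
    ⟨hfin.toFinset, by simp⟩
  have e1 : ∑ᶠ v : nonarchAbsVal (K := L), Cv v.1 = ∑ v ∈ T, Cv v.1 := by
    refine finsum_eq_sum_of_support_subset _ ?_
    intro v hv
    exact hT (Or.inl hv)
  have e2 : ∑ᶠ v : nonarchAbsVal (K := L), log⁺ (v.1 c) = ∑ v ∈ T, log⁺ (v.1 c) := by
    refine finsum_eq_sum_of_support_subset _ ?_
    intro v hv
    exact hT (Or.inr (Or.inl hv))
  have e3 : ∀ i ∈ s, ∑ᶠ v : nonarchAbsVal (K := L), log⁺ (v.1 (g i)) =
      ∑ v ∈ T, log⁺ (v.1 (g i)) := by
    intro i hi
    refine finsum_eq_sum_of_support_subset _ ?_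
    intro v hv
    exact hT (Or.inr (Or.inr (Set.mem_biUnion hi hv)))
  rw [h1, e1, e2, Finset.sum_congr rfl e3, Finset.sum_comm]
  have a1 : κ * ((archAbsVal (K := L)).map fun v => log⁺ (v c)).sum -
      ((archAbsVal (K := L)).map Cv).sum ≤
      ((archAbsVal (K := L)).map fun v => ∑ i ∈ s, log⁺ (v (g i))).sum := by
    rw [← Multiset.sum_map_mul_left, ← Multiset.sum_map_sub]
    exact Multiset.sum_map_le_sum_map _ _ fun v hv => h v (Or.inl hv)
  have a2 : κ * ∑ v ∈ T, log⁺ (v.1 c) - ∑ v ∈ T, Cv v.1 ≤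
      ∑ v ∈ T, ∑ i ∈ s, log⁺ (v.1 (g i)) := by
    rw [Finset.mul_sum, ← Finset.sum_sub_distrib]
    exact Finset.sum_le_sum fun v _ => h v.1 (Or.inr v.2)
  rw [mul_add]
  linarith

section local_bounds

variable {L : Type*} [Field L] (v : AbsoluteValue L ℝ)

theorem prePer_le_of_escape {d : ℕ} {c : L} {T : ℝ} (hT : ∀ y, T < v y → v y < v (F d c y))
    {x : L} (hx : x ∈ PrePer d c) : v x ≤ T := by
  obtain ⟨i, j, hij, h⟩ := hx
  by_contra! hlt
  have hmono : ∀ k, T < v ((F d c)^[k] x) := by
    intro k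
    induction k with
    | zero => simpa using hlt
    | succ k ih =>
      rw [Function.iterate_succ_apply']
      exact ih.trans (hT _ ih)
  have hstrict : StrictMono fun k => v ((F d c)^[k] x) := by
    refine strictMono_nat_of_lt_succ fun k => ?_
    simp only [Function.iterate_succ_apply']
    exact hT _ (hmono k)
  exact absurd (congrArg v h) (ne_of_lt (hstrict hij))

/-- General bound for preperiodic points. -/
theorem prePer_le {d : ℕ} (hd : 2 ≤ d) {c x : L} (hx : x ∈ PrePer d c) :
    v x ≤ 2 * max (v c) 1 := by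
  refine prePer_le_of_escape v (fun y hy => ?_) hx
  have h1 : (1 : ℝ) ≤ max (v c) 1 := le_max_right _ _
  have hc : v c ≤ max (v c) 1 := le_max_left _ _
  have hy2 : 2 < v y := by linarith
  have h2 : v y ^ 2 ≤ v y ^ d := pow_le_pow_right₀ (by linarith) hd
  have h3 : v (y ^ d) - v c ≤ v (F d c y) := by
    have h4 : v (y ^ d) ≤ v (F d c y) + v c := by
      have h5 : y ^ d = F d c y + -c := by simp [F]
      calc v (y ^ d) = v (F d c y + -c) := by rw [← h5]
        _ ≤ v (F d c y) + v (-c) := v.add_le _ _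
        _ = v (F d c y) + v c := by rw [v.map_neg]
    linarith
  rw [map_pow] at h3
  nlinarith

/-- Bound for preperiodic points at a nonarchimedean place. -/
theorem prePer_le_nonarch (hv : IsNonarchimedean v) {d : ℕ} (hd : 2 ≤ d) {c x : L}
    (hx : x ∈ PrePer d c) : v x ≤ max (v c) 1 := by
  refine prePer_le_of_escape v (fun y hy => ?_) hx
  have h1 : (1 : ℝ) ≤ max (v c) 1 := le_max_right _ _
  have hc : v c ≤ max (v c) 1 := le_max_left _ _
  have h2 : v y ^ 2 ≤ v y ^ d := pow_le_pow_right₀ (by linarith) hd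
  have h3 : v y < v y ^ d := by nlinarith
  have h4 : v (y ^ d) ≤ max (v (F d c y)) (v c) := by
    have h5 : y ^ d = F d c y + -c := by simp [F]
    calc v (y ^ d) = v (F d c y + -c) := by rw [← h5]
      _ ≤ max (v (F d c y)) (v (-c)) := hv _ _
      _ = max (v (F d c y)) (v c) := by rw [v.map_neg]
  rw [map_pow] at h4
  rcases le_max_iff.1 h4 with h5 | h5
  · linarith
  · linarith

end local_bounds

theorem logHeight_prePer (L : Type*) [Field L] [NumberField L] (d : ℕ) (hd : 2 ≤ d) :
    ∃ C : ℝ, ∀ c x : L, x ∈ PrePer d c → logHeight₁ x ≤ logHeight₁ c + C := by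
  classical
  refine ⟨((archAbsVal (K := L)).map fun v => if v ∈ nonarchAbsVal (K := L) then 0 else
    Real.log 2).sum + ∑ᶠ v : nonarchAbsVal (K := L), (if v.1 ∈ nonarchAbsVal (K := L) then 0 else
      Real.log 2), fun c x hx => ?_⟩
  have h := sum_bound (L := L) {()} (fun _ : Unit => c) x 1
    (fun v => if v ∈ nonarchAbsVal (K := L) then 0 else Real.log 2) (by
      refine Set.Finite.subset Set.finite_empty ?_
      intro v hv
      exact hv (by simp [v.2])) (by
      intro v hv
      rw [Finset.sum_singleton, one_mul]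
      split_ifs with h1
      · rw [sub_zero]
        have h2 := prePer_le_nonarch v (isNonarchimedean v h1) hd hx
        calc log⁺ (v x) ≤ log⁺ (max (v c) 1) := posLog_le_posLog (v.nonneg _) h2
          _ = log⁺ (v c) := by
            rw [posLog_eq_log_max_one (v.nonneg c), posLog_eq_log_max_one (by positivity),
              max_comm 1 (max (v c) 1), max_assoc, max_self, max_comm]
      · have h2 := prePer_le v hd hx
        have h3 : log⁺ (v x) ≤ log⁺ (2 * max (v c) 1) := posLog_le_posLog (v.nonneg _) h2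
        have h4 : log⁺ (2 * max (v c) 1) ≤ log⁺ 2 + log⁺ (max (v c) 1) := posLog_mul
        have h5 : log⁺ (max (v c) 1) = log⁺ (v c) := by
          rw [posLog_eq_log_max_one (v.nonneg c), posLog_eq_log_max_one (by positivity),
              max_comm 1 (max (v c) 1), max_assoc, max_self, max_comm]
        have h6 : log⁺ (2 : ℝ) = Real.log 2 := posLog_eq_log (by norm_num)
        linarith)
  rw [Finset.sum_singleton, one_mul] at h
  linarith

end Pool.Agent.MP90787a.MW
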