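import Mathlib

/-!
# A selection lemma (a Ramsey-type pigeonhole)
-/

namespace Pool.Agent.MP90787a.MW

universe u

private theorem card_aux {α : Type u} (M k : ℕ) (f : α → Fin M) (X : Finset α)
    (h : M * k + 1 ≤ X.card) : ∃ Y ⊆ X, k + 1 ≤ Y.card ∧ ∀ y ∈ Y, ∀ y' ∈ Y, f y = f y' := by
  classical
  obtain ⟨c, -, hc⟩ := Finset.exists_lt_card_fiber_of_mul_lt_card_of_maps_to
    (s := X) (t := (Finset.univ : Finset (Fin M))) (f := f) (n := k)
    (fun x _ => Finset.mem_univ _) (by rw [Finset.card_univ, Fintype.card_fin]; omega)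
  refine ⟨X.filter fun x => f x = c, Finset.filter_subset _ _, hc, ?_⟩
  intro y hy y' hy'
  rw [Finset.mem_filter] at hy hy'
  rw [hy.2, hy'.2]

/-- Among sufficiently many points one finds `r` points `x 0, x 1, ...` such that for each `a` the
colours of the pairs `(x a, x b)` with `b > a` agree. -/
theorem select (M r : ℕ) : ∃ N : ℕ, ∀ {α : Type u} (f : α → α → Fin M) (X : Finset α),
    N ≤ X.card → ∃ x : Fin r → α, Function.Injective x ∧ (∀ i, x i ∈ X) ∧
      ∀ a b b', a < b → a < b' → f (x a) (x b) = f (x a) (x b') := by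
  induction r with
  | zero => exact ⟨0, fun f X _ => ⟨Fin.elim0, fun i => i.elim0, fun i => i.elim0,
      fun a => a.elim0⟩⟩
  | succ r ih =>
    obtain ⟨N, hN⟩ := ih
    refine ⟨M * N + 2, fun {α} f X hX => ?_⟩
    classical
    have hne : X.Nonempty := Finset.card_pos.1 (by omega)
    obtain ⟨x₀, hx₀⟩ := hne
    obtain ⟨Y, hYX, hYc, hY⟩ := card_aux M N (f x₀) (X.erase x₀) (by
      rw [Finset.card_erase_of_mem hx₀]; omega)
    obtain ⟨x, hx1, hx2, hx3⟩ := hN f Y (by omega)
    have hmem : ∀ i, x i ∈ X := fun i => Finset.mem_of_mem_erase (hYX (hx2 i))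
    have hne : ∀ i, x i ≠ x₀ := fun i => Finset.ne_of_mem_erase (hYX (hx2 i))
    refine ⟨Fin.cons x₀ x, ?_, ?_, ?_⟩
    · rw [Fin.cons_injective_iff]
      exact ⟨fun ⟨i, hi⟩ => hne i hi, hx1⟩
    · intro i
      refine Fin.cases ?_ (fun j => ?_) i
      · simpa using hx₀
      · simpa using hmem j
    · intro a b b' hab hab'
      revert hab hab'
      refine Fin.cases ?_ (fun a' => ?_) a
      · intro hab hab'
        obtain ⟨b, rfl⟩ := Fin.exists_succ_eq.2 (Fin.pos_iff_ne_zero.1 hab)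
        obtain ⟨b', rfl⟩ := Fin.exists_succ_eq.2 (Fin.pos_iff_ne_zero.1 hab')
        simp only [Fin.cons_zero, Fin.cons_succ]
        exact hY _ (hx2 b) _ (hx2 b')
      · intro hab hab'
        obtain ⟨b, rfl⟩ := Fin.exists_succ_eq.2
          (Fin.pos_iff_ne_zero.1 (lt_of_le_of_lt (Fin.zero_le _) hab))
        obtain ⟨b', rfl⟩ := Fin.exists_succ_eq.2
          (Fin.pos_iff_ne_zero.1 (lt_of_le_of_lt (Fin.zero_le _) hab'))
        simp only [Fin.cons_succ]
        exact hx3 _ _ _ (by simpa using hab) (by simpa using hab')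

end Pool.Agent.MP90787a.MW
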