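import Mathlib
import Pool.Agent.Lib.MP_90787a_nt.MW.Defs
import Pool.Agent.Lib.MP_90787a_nt.MW.HeightBound
import Pool.Agent.Lib.MP_90787a_nt.MW.Select

/-!
# The main inequality

Small differences (cells) against local closeness (`hloc`).
-/

namespace Pool.Agent.MP90787a.MW

open Height IsDedekindDomain NumberField Real AdmissibleAbsValues Function

theorem comb_aux (L : Type*) [Field L] [NumberField L] [DecidableEq L] (e : Fin 3 → L)
    (hcells : ∃ C' : ℝ, ∀ ε > 0, ∃ M : ℕ, ∀ H : ℝ, 1 ≤ H → ∃ κ : (We e).Point → Fin M, ∀ P Q,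
      logHeight P.xRep ≤ H → logHeight Q.xRep ≤ H → κ P = κ Q →
      logHeight (P - Q).xRep ≤ ε * H + C')
    (hlog : ∀ P : (We e).Point, logHeight P.xRep = logHeight₁ (xc P))
    (r : ℕ) (Good : L → Finset L → Prop)
    (P : L → L → (We e).Point) (C₁ : ℝ)
    (hP : ∀ c X, Good c X → ∀ x ∈ X, ∀ y ∈ X, x ≠ y →
      logHeight (P x y).xRep ≤ C₁ * (logHeight₁ c + 1))
    (hX : ∀ c X, Good c X → ∀ x ∈ X, logHeight₁ x ≤ logHeight₁ c + C₁)
    (κ : ℝ) (hκ : 0 < κ) (Cv : AbsoluteValue L ℝ → ℝ)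
    (hCv : {v : nonarchAbsVal (K := L) | Cv v.1 ≠ 0}.Finite)
    (hloc : ∀ c X, Good c X → ∀ x : Fin r → L, Function.Injective x → (∀ i, x i ∈ X) →
      ∀ v : AbsoluteValue L ℝ, (v ∈ archAbsVal (K := L) ∨ v ∈ nonarchAbsVal (K := L)) →
      ∃ a b b', a < b ∧ a < b' ∧ b ≠ b' ∧
        κ * log⁺ (v c) - Cv v ≤ log⁺ (v (xc (P (x a) (x b) - P (x a) (x b'))))) :
    ∃ B : ℕ, ∀ c X, Good c X → X.card ≤ B := by
  classical
  obtain ⟨C', hC'⟩ := hcells
  set A : ℝ := max C₁ 1 with hA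
  have hA1 : 1 ≤ A := le_max_right _ _
  have hAC : C₁ ≤ A := le_max_left _ _
  set R : ℝ := (r : ℝ) ^ 3 + 1 with hR
  have hR0 : 0 < R := by positivity
  set ε : ℝ := κ / (2 * R * A) with hε
  have hε0 : 0 < ε := by positivity
  obtain ⟨M, hM⟩ := hC' ε hε0
  obtain ⟨N, hN⟩ := select M r
  set Ctot : ℝ := ((archAbsVal (K := L)).map Cv).sum +
    ∑ᶠ v : nonarchAbsVal (K := L), Cv v.1 with hCtot
  set H0 : ℝ := 2 / κ * (Ctot + κ / 2 + R * max C' 0) with hH0
  set T : Finset L := (finite_setOfPred_logHeight₁_le L (H0 + C₁)).toFinset with hT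
  refine ⟨max N T.card, fun c X hG => ?_⟩
  by_contra! hlt
  have hNX : N ≤ X.card := (le_max_left N T.card).trans hlt.le
  have hTX : T.card < X.card := lt_of_le_of_lt (le_max_right N T.card) hlt
  set h : ℝ := logHeight₁ c with hh
  have hh0 : 0 ≤ h := zero_le_logHeight₁ c
  set H : ℝ := A * (h + 1) with hH
  have hH1 : 1 ≤ H := by nlinarith
  obtain ⟨col, hcol⟩ := hM H hH1
  obtain ⟨x, hxinj, hxX, hxcol⟩ := hN (fun x y => col (P x y)) X hNX
  set s : Finset (Fin r × Fin r × Fin r) := Finset.univ.filter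
    (fun τ => τ.1 < τ.2.1 ∧ τ.1 < τ.2.2 ∧ τ.2.1 ≠ τ.2.2) with hs
  set g : Fin r × Fin r × Fin r → L := fun τ =>
    xc (P (x τ.1) (x τ.2.1) - P (x τ.1) (x τ.2.2)) with hg
  have lower := sum_bound s g c κ Cv hCv (by
    intro v hv
    obtain ⟨a, b, b', h1, h2, h3, h4⟩ := hloc c X hG x hxinj hxX v hv
    refine h4.trans ?_
    have hmem : (a, b, b') ∈ s := by
      rw [hs, Finset.mem_filter]
      exact ⟨Finset.mem_univ _, h1, h2, h3⟩
    exact Finset.single_le_sum (f := fun τ => log⁺ (v (g τ))) (fun _ _ => posLog_nonneg) hmem)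
  have hPH : ∀ a b, a < b → logHeight (P (x a) (x b)).xRep ≤ H := by
    intro a b hab
    have hne : x a ≠ x b := fun h => (ne_of_lt hab) (hxinj h)
    refine (hP c X hG _ (hxX a) _ (hxX b) hne).trans ?_
    rw [hH]
    have : 0 ≤ h + 1 := by linarith
    exact mul_le_mul_of_nonneg_right hAC this
  have upper : ∀ τ ∈ s, logHeight₁ (g τ) ≤ ε * H + max C' 0 := by
    intro τ hτ
    rw [hs, Finset.mem_filter] at hτ
    obtain ⟨-, h1, h2, h3⟩ := hτ
    have h4 := hcol _ _ (hPH _ _ h1) (hPH _ _ h2) (hxcol _ _ _ h1 h2)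
    rw [hlog] at h4
    exact h4.trans (by gcongr; exact le_max_left _ _)
  have hcard : (s.card : ℝ) ≤ R := by
    have h1 : s.card ≤ r ^ 3 := by
      refine (Finset.card_filter_le _ _).trans (le_of_eq ?_)
      rw [Finset.card_univ, Fintype.card_prod, Fintype.card_prod, Fintype.card_fin]
      ring
    have h2 : (s.card : ℝ) ≤ (r : ℝ) ^ 3 := by exact_mod_cast h1
    linarith
  have hpos : 0 ≤ ε * H + max C' 0 := by
    have : 0 ≤ max C' 0 := le_max_right _ _
    positivity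
  have hsum : ∑ τ ∈ s, logHeight₁ (g τ) ≤ R * (ε * H + max C' 0) := by
    refine (Finset.sum_le_card_nsmul s _ _ upper).trans ?_
    rw [nsmul_eq_mul]
    exact mul_le_mul_of_nonneg_right hcard hpos
  have hεH : R * (ε * H) = κ / 2 * (h + 1) := by
    rw [hε, hH]
    field_simp
  have hfin : h ≤ H0 := by
    have h1 : κ * h - Ctot ≤ κ / 2 * (h + 1) + R * max C' 0 := by
      calc κ * h - Ctot ≤ _ := lower
        _ ≤ _ := hsum
        _ = _ := by rw [mul_add, hεH]
    have h2 : κ / 2 * h ≤ Ctot + κ / 2 + R * max C' 0 := by linarith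
    rw [hH0]
    have h3 : h = 2 / κ * (κ / 2 * h) := by field_simp
    rw [h3]
    exact mul_le_mul_of_nonneg_left h2 (by positivity)
  have hsub : X ⊆ T := by
    intro y hy
    rw [hT, Set.Finite.mem_toFinset, Set.mem_ofPred_eq]
    exact (hX c X hG y hy).trans (by linarith)
  exact absurd (Finset.card_le_card hsub) (not_le.2 hTX)

end Pool.Agent.MP90787a.MW
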