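import Pool.Agent.Lib.MP_90787a_nt.MW.Defs

/-!
# Module Coord: coordinates of points on `y² = (x - e 0)(x - e 1)(x - e 2)`
-/

namespace Pool.Agent.MP90787a.MW

open Height IsDedekindDomain NumberField Real AdmissibleAbsValues

theorem logHeight_xRep {L : Type*} [Field L] [AdmissibleAbsValues L] (e : Fin 3 → L)
    (P : (We e).Point) : logHeight P.xRep = logHeight₁ (xc P) := by
  cases P with
  | zero =>
    change logHeight ![(1 : L), 0] = logHeight₁ (0 : L)
    rw [logHeight_swap, logHeight₁_eq_logHeight]
  | some x y h => exact (logHeight₁_eq_logHeight x).symm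

theorem finite_le (L : Type*) [Field L] [NumberField L] (e : Fin 3 → L) (B : ℝ) :
    {P : (We e).Point | logHeight P.xRep ≤ B}.Finite := by
  have h1 : {x : L | logHeight₁ x ≤ B}.Finite := NumberField.finite_setOfPred_logHeight₁_le L B
  have h2 : (insert ![(1 : L), 0] ((fun x : L => ![x, 1]) '' {x : L | logHeight₁ x ≤ B})).Finite :=
    (h1.image _).insert _
  have h3 : ∀ v : Fin 2 → L, {P : (We e).Point | P.xRep = v}.Finite := by
    intro v
    by_cases hv : ∃ P₀ : (We e).Point, P₀.xRep = v
    · obtain ⟨P₀, hP₀⟩ := hv
      refine (Set.toFinite {P₀, -P₀}).subset ?_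
      intro P hP
      have h4 : P.xRep = P₀.xRep := hP.trans hP₀.symm
      rcases WeierstrassCurve.Affine.Point.eq_or_eq_neg_of_xRep_eq_xRep h4 with h | h
      · exact Or.inl h
      · exact Or.inr h
    · convert Set.finite_empty
      ext P
      simp only [Set.mem_ofPred_eq, Set.mem_empty_iff_false, iff_false]
      exact fun h => hv ⟨P, h⟩
  refine (h2.biUnion fun v _ => h3 v).subset ?_
  intro P hP
  rw [Set.mem_iUnion₂]
  refine ⟨P.xRep, ?_, rfl⟩
  cases P with
  | zero => exact Or.inl rfl
  | some x y h =>
    refine Or.inr ⟨x, ?_, rfl⟩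
    have h5 : logHeight (WeierstrassCurve.Affine.Point.some x y h : (We e).Point).xRep ≤ B := hP
    rw [logHeight_xRep] at h5
    exact h5

theorem equation_of {L : Type*} [Field L] (e : Fin 3 → L) {x y : L}
    (h : (We e).Nonsingular x y) : y ^ 2 = (x - e 0) * (x - e 1) * (x - e 2) := by
  have h1 := ((We e).nonsingular_iff x y).mp h
  have h2 := ((We e).equation_iff x y).mp h1.1
  simp only [We] at h2
  linear_combination h2

theorem xc_sub_of_X_ne {L : Type*} [Field L] [DecidableEq L] (e : Fin 3 → L) {x y x' y' : L}
    (h : (We e).Nonsingular x y) (h' : (We e).Nonsingular x' y') (hx : x ≠ x') :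
    xc (WeierstrassCurve.Affine.Point.some x y h - WeierstrassCurve.Affine.Point.some x' y' h') =
      ((y + y') / (x - x')) ^ 2 + (e 0 + e 1 + e 2) - x - x' := by
  rw [sub_eq_add_neg, WeierstrassCurve.Affine.Point.neg_some,
    WeierstrassCurve.Affine.Point.add_of_X_ne hx]
  change (We e).addX x x' ((We e).slope x x' y ((We e).negY x' y')) = _
  rw [WeierstrassCurve.Affine.slope_of_X_ne hx]
  simp only [WeierstrassCurve.Affine.addX, WeierstrassCurve.Affine.negY, We]
  ring

theorem xc_sub_of_Y_ne {L : Type*} [Field L] [CharZero L] [DecidableEq L] (e : Fin 3 → L)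
    {x y x' y' : L}
    (h : (We e).Nonsingular x y) (h' : (We e).Nonsingular x' y') (hy : y ≠ y') :
    xc (WeierstrassCurve.Affine.Point.some x y h - WeierstrassCurve.Affine.Point.some x' y' h') =
      ((x ^ 2 + x * x' + x' ^ 2 - (e 0 + e 1 + e 2) * (x + x') +
        (e 0 * e 1 + e 0 * e 2 + e 1 * e 2)) / (y - y')) ^ 2 + (e 0 + e 1 + e 2) - x - x' := by
  have e1 := equation_of e h
  have e2 := equation_of e h'
  have hyy : y - y' ≠ 0 := sub_ne_zero.mpr hy
  by_cases hx : x = x'
  · subst hx
    have h3 : (y - y') * (y + y') = 0 := by linear_combination e1 - e2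
    have h4 : y + y' = 0 := (mul_eq_zero.mp h3).resolve_left hyy
    have h5 : y' = -y := by linear_combination h4
    subst h5
    have h6 : y ≠ (We e).negY x y := by
      simp only [WeierstrassCurve.Affine.negY, We]
      intro h7
      apply hy
      linear_combination h7
    have h7 : y ≠ (We e).negY x ((We e).negY x (-y)) := by
      simp only [WeierstrassCurve.Affine.negY, We]
      intro h7
      apply hy
      linear_combination h7
    rw [sub_eq_add_neg, WeierstrassCurve.Affine.Point.neg_some,
      WeierstrassCurve.Affine.Point.add_of_Y_ne h7]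
    change (We e).addX x x ((We e).slope x x y ((We e).negY x (-y))) = _
    rw [WeierstrassCurve.Affine.slope_of_Y_ne rfl h7]
    simp only [WeierstrassCurve.Affine.addX, WeierstrassCurve.Affine.negY, We]
    ring
  · rw [xc_sub_of_X_ne e h h' hx]
    have hxx : x - x' ≠ 0 := sub_ne_zero.mpr hx
    have h8 : (y + y') / (x - x') =
        (x ^ 2 + x * x' + x' ^ 2 - (e 0 + e 1 + e 2) * (x + x') +
          (e 0 * e 1 + e 0 * e 2 + e 1 * e 2)) / (y - y') := by
      rw [div_eq_div_iff hxx hyy]
      linear_combination e1 - e2
    rw [h8]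

theorem nonsingular_of {L : Type*} [Field L] [CharZero L] (e : Fin 3 → L)
    (he : Function.Injective e) {x y : L} (h : y ^ 2 = (x - e 0) * (x - e 1) * (x - e 2)) :
    (We e).Nonsingular x y := by
  rw [WeierstrassCurve.Affine.nonsingular_iff']
  constructor
  · rw [WeierstrassCurve.Affine.equation_iff]
    simp only [We]
    linear_combination h
  · by_contra hcon
    simp only [not_or, not_not, We] at hcon
    obtain ⟨h1, h2⟩ := hcon
    have h3 : 2 * y = 0 := by linear_combination h2
    have h4 : y = 0 := by
      rcases mul_eq_zero.mp h3 with h | h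
      · exact absurd h two_ne_zero
      · exact h
    subst h4
    have h5 : (x - e 0) * (x - e 1) * (x - e 2) = 0 := by rw [← h]; ring
    have h01 : e 0 - e 1 ≠ 0 := sub_ne_zero.mpr fun h => by simpa using he h
    have h02 : e 0 - e 2 ≠ 0 := sub_ne_zero.mpr fun h => by simpa using he h
    have h12 : e 1 - e 2 ≠ 0 := sub_ne_zero.mpr fun h => by simpa using he h
    rcases mul_eq_zero.mp h5 with h6 | h6
    · rcases mul_eq_zero.mp h6 with h7 | h7
      · have h8 : x = e 0 := by linear_combination h7
        subst h8
        have h9 : (e 0 - e 1) * (e 0 - e 2) = 0 := by linear_combination -h1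
        rcases mul_eq_zero.mp h9 with h | h
        · exact h01 h
        · exact h02 h
      · have h8 : x = e 1 := by linear_combination h7
        subst h8
        have h9 : (e 0 - e 1) * (e 1 - e 2) = 0 := by linear_combination h1
        rcases mul_eq_zero.mp h9 with h | h
        · exact h01 h
        · exact h12 h
    · have h8 : x = e 2 := by linear_combination h6
      subst h8
      have h9 : (e 0 - e 2) * (e 1 - e 2) = 0 := by linear_combination -h1
      rcases mul_eq_zero.mp h9 with h | h
      · exact h02 h
      · exact h12 h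

end Pool.Agent.MP90787a.MW
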