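import Pool.Agent.Lib.MP_90787a_nt.MW.Defs

/-!
# The n-th power structure of differences of preperiodic points of `x ^ d + c`
-/

namespace Pool.Agent.MP90787a.MW

open IsDedekindDomain NumberField Finset Polynomial

namespace CtrlAux

section General

open scoped Classical

variable {K : Type*} [Field K] {Γ : Type*} [LinearOrderedCommGroupWithZero Γ] (w : Valuation K Γ)

theorem eq_one_of_prod {ι : Type*} {s : Finset ι} {f : ι → Γ} (h : ∀ i ∈ s, f i ≤ 1)
    (hp : ∏ i ∈ s, f i = 1) : ∀ i ∈ s, f i = 1 :=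
  (Finset.prod_eq_one_iff_of_le_one' h).mp hp

theorem val_root {d : ℕ} (hd : d ≠ 0) {η : K} (h : η ^ d = 1) : w η = 1 := by
  have h1 : w η ^ d = 1 := by rw [← map_pow, h, map_one]
  exact (pow_eq_one_iff.mp h1).resolve_right hd

theorem val_one_sub_root {d : ℕ} (hd : 2 ≤ d) {ζ : K} (hζ : IsPrimitiveRoot ζ d)
    (hwd : w (d : K) = 1) {η : K} (h : η ^ d = 1) (h1 : η ≠ 1) : w (1 - η) = 1 := by
  obtain ⟨n, rfl⟩ : ∃ n, d = n + 1 := ⟨d - 1, by omega⟩
  obtain ⟨k, hk, rfl⟩ := hζ.eq_pow_of_pow_eq_one h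
  have hk0 : k ≠ 0 := by
    rintro rfl
    exact h1 (pow_zero _)
  obtain ⟨k, rfl⟩ : ∃ k', k = k' + 1 := ⟨k - 1, by omega⟩
  have hprod := hζ.prod_one_sub_pow_eq_order
  have h2 : ∏ k ∈ range n, w (1 - ζ ^ (k + 1)) = 1 := by
    rw [← map_prod, hprod]
    push_cast at hwd
    exact hwd
  refine eq_one_of_prod (fun i _ => ?_) h2 k (by simp; omega)
  refine (w.map_sub _ _).trans ?_
  rw [map_one, map_pow, val_root w (by omega) hζ.pow_eq_one, one_pow, max_self]

theorem val_pow_sub_pow {d : ℕ} (hd : 2 ≤ d) {ζ : K} (hζ : IsPrimitiveRoot ζ d) (x y : K) :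
    w (x ^ d - y ^ d) = w (x - y) * ∏ η ∈ (nthRootsFinset d (1 : K)).erase 1, w (x - η * y) := by
  classical
  rw [hζ.pow_sub_pow_eq_prod_sub_mul x y (by omega), map_prod]
  have h1 : (1 : K) ∈ nthRootsFinset d (1 : K) := by
    rw [mem_nthRootsFinset (by omega)]
    exact one_pow _
  rw [← Finset.mul_prod_erase _ _ h1, one_mul]

theorem mem_erase_roots {d : ℕ} (hd : 2 ≤ d) {η : K} :
    η ∈ (nthRootsFinset d (1 : K)).erase 1 ↔ η ≠ 1 ∧ η ^ d = 1 := by
  classical
  rw [Finset.mem_erase, mem_nthRootsFinset (by omega)]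

theorem card_erase_roots {d : ℕ} (hd : 2 ≤ d) {ζ : K} (hζ : IsPrimitiveRoot ζ d) :
    ((nthRootsFinset d (1 : K)).erase 1).card = d - 1 := by
  classical
  rw [Finset.card_erase_of_mem, hζ.card_nthRootsFinset]
  rw [mem_nthRootsFinset (by omega)]
  exact one_pow _

/-! ### Escape -/

theorem step_escape {d : ℕ} (hd : 2 ≤ d) {c x : K} (h1 : 1 < w x) (h2 : w c < w x ^ d) :
    w x < w (F d c x) ∧ w c < w (F d c x) ^ d := by
  have h3 : w (F d c x) = w x ^ d := by
    unfold F
    rw [add_comm, w.map_add_eq_of_lt_right (by rw [map_pow]; exact h2), map_pow]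
  have h4 : w x < w x ^ d := lt_self_pow₀ h1 (by omega)
  refine ⟨h3 ▸ h4, ?_⟩
  rw [h3]
  refine h2.trans ?_
  exact lt_self_pow₀ (h1.trans h4) (by omega)

theorem not_prePer {d : ℕ} (hd : 2 ≤ d) {c x : K} (h1 : 1 < w x) (h2 : w c < w x ^ d) :
    x ∉ PrePer d c := by
  rintro ⟨i, j, hij, h⟩
  have key : ∀ k, 1 < w ((F d c)^[k] x) ∧ w c < w ((F d c)^[k] x) ^ d := by
    intro k
    induction k with
    | zero => exact ⟨h1, h2⟩
    | succ k ih =>
      rw [Function.iterate_succ_apply']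
      have := step_escape w hd ih.1 ih.2
      exact ⟨ih.1.trans this.1, this.2⟩
  have hmono : StrictMono fun k => w ((F d c)^[k] x) := by
    refine strictMono_nat_of_lt_succ fun k => ?_
    rw [Function.iterate_succ_apply']
    exact (step_escape w hd (key k).1 (key k).2).1
  have := hmono hij
  simp only [h] at this
  exact lt_irrefl _ this

theorem prePer_map {d : ℕ} {c x : K} (h : x ∈ PrePer d c) : F d c x ∈ PrePer d c := by
  obtain ⟨i, j, hij, h⟩ := h
  refine ⟨i, j, hij, ?_⟩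
  rw [← Function.iterate_succ_apply, ← Function.iterate_succ_apply,
    Function.iterate_succ_apply', Function.iterate_succ_apply', h]

theorem prePer_of_map {d : ℕ} {c x : K} (h : F d c x ∈ PrePer d c) : x ∈ PrePer d c := by
  obtain ⟨i, j, hij, h⟩ := h
  exact ⟨i + 1, j + 1, by omega, h⟩

theorem prePer_of_per {d : ℕ} {c x : K} (h : x ∈ Per d c) : x ∈ PrePer d c := by
  obtain ⟨n, hn, h⟩ := h
  exact ⟨0, n, hn, h.symm⟩

theorem prePer_root_mul {d : ℕ} {c y η : K} (hη : η ^ d = 1) (h : y ∈ PrePer d c) :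
    η * y ∈ PrePer d c := by
  apply prePer_of_map
  have : F d c (η * y) = F d c y := by
    unfold F
    rw [mul_pow, hη, one_mul]
  rw [this]
  exact prePer_map h

theorem val_bad {d : ℕ} (hd : 2 ≤ d) {c x : K} (hc : 1 < w c) (hx : x ∈ PrePer d c) :
    w x ^ d = w c := by
  rcases lt_trichotomy (w x ^ d) (w c) with h | h | h
  · exfalso
    have h3 : w (F d c x) = w c := by
      unfold F
      rw [w.map_add_eq_of_lt_right (by rw [map_pow]; exact h)]
    refine not_prePer w hd (x := F d c x) ?_ ?_ (prePer_map hx)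
    · rw [h3]; exact hc
    · rw [h3]; exact lt_self_pow₀ hc (by omega)
  · exact h
  · exfalso
    refine not_prePer w hd ?_ h hx
    by_contra h1
    exact absurd (hc.trans h) (not_lt.mpr (pow_le_one' (not_lt.mp h1) d))

theorem val_good {d : ℕ} (hd : 2 ≤ d) {c x : K} (hc : w c ≤ 1) (hx : x ∈ PrePer d c) :
    w x ≤ 1 := by
  by_contra h
  rw [not_le] at h
  exact not_prePer w hd h (hc.trans_lt (one_lt_pow' h (by omega))) hx

/-! ### Bad places -/

theorem bad_step {d : ℕ} (hd : 2 ≤ d) {ζ : K} (hζ : IsPrimitiveRoot ζ d) (hwd : w (d : K) = 1)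
    {c : K} {ρ : Γ} {u t : K} (ht : w t = ρ) (h : w (u - t) < ρ) :
    w (F d c u - F d c t) = w (u - t) * ρ ^ (d - 1) := by
  have h1 : F d c u - F d c t = u ^ d - t ^ d := by
    unfold F; ring
  rw [h1, val_pow_sub_pow w hd hζ]
  congr 1
  rw [← card_erase_roots hd hζ, Finset.prod_congr rfl (g := fun _ => ρ), Finset.prod_const]
  intro η hη
  rw [mem_erase_roots hd] at hη
  have h2 : w ((1 - η) * t) = ρ := by
    rw [map_mul, val_one_sub_root w hd hζ hwd hη.2 hη.1, one_mul, ht]
  have h3 : u - η * t = (u - t) + (1 - η) * t := by ring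
  rw [h3, w.map_add_eq_of_lt_right (by rw [h2]; exact h), h2]

theorem bad_dist {d : ℕ} (hd : 2 ≤ d) {ζ : K} (hζ : IsPrimitiveRoot ζ d) (hwd : w (d : K) = 1)
    {c : K} {ρ : Γ} (hρ : 1 < ρ) (hval : ∀ x ∈ PrePer d c, w x = ρ) (k : ℕ) :
    ∀ u t : K, u ∈ PrePer d c → t ∈ PrePer d c → ρ ≤ w (u - t) * ρ ^ k →
      ∃ m : ℕ, w (u - t) * ρ ^ ((d - 1) * m) = ρ := by
  have hle : ∀ u t : K, u ∈ PrePer d c → t ∈ PrePer d c → w (u - t) ≤ ρ := by
    intro u t hu ht
    refine (w.map_sub _ _).trans ?_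
    rw [hval u hu, hval t ht, max_self]
  induction k with
  | zero =>
    intro u t hu ht h
    rw [pow_zero, mul_one] at h
    exact ⟨0, by rw [mul_zero, pow_zero, mul_one]; exact le_antisymm (hle u t hu ht) h⟩
  | succ k ih =>
    intro u t hu ht h
    rcases (hle u t hu ht).lt_or_eq with h1 | h1
    · have h2 := bad_step w hd hζ hwd (c := c) (hval t ht) h1
      have h3 : ρ ≤ w (F d c u - F d c t) * ρ ^ k := by
        rw [h2, mul_assoc, ← pow_add]
        refine h.trans (mul_le_mul_right (pow_le_pow_right' hρ.le (by omega)) _)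
      obtain ⟨m, hm⟩ := ih _ _ (prePer_map hu) (prePer_map ht) h3
      refine ⟨m + 1, ?_⟩
      rw [h2, mul_assoc, ← pow_add] at hm
      rw [← hm]
      congr 2
      ring
    · exact ⟨0, by rw [mul_zero, pow_zero, mul_one]; exact h1⟩

theorem ratio_bad [MulArchimedean Γ] {d : ℕ} (hd : 2 ≤ d) {ζ : K} (hζ : IsPrimitiveRoot ζ d)
    (hwd : w (d : K) = 1) {c : K} (hc : 1 < w c) {x y : K} (hx : x ∈ PrePer d c)
    (hy : y ∈ PrePer d c) (hxy : x ^ d ≠ y ^ d) {η η' : K} (hη : η ^ d = 1) (hη' : η' ^ d = 1) :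
    ∃ g : Γ, w ((x - η * y) / (x - η' * y)) = g ^ (d - 1) := by
  set ρ := w x with hρ
  have hρd : ρ ^ d = w c := val_bad w hd hc hx
  have hρ1 : 1 < ρ := by
    by_contra h
    rw [← hρd] at hc
    exact absurd hc (not_lt.mpr (pow_le_one' (not_lt.mp h) d))
  have hρ0 : ρ ≠ 0 := (zero_lt_one.trans hρ1).ne'
  have hval : ∀ u ∈ PrePer d c, w u = ρ := by
    intro u hu
    have h1 := val_bad w hd hc hu
    rw [← hρd] at h1
    exact (pow_left_inj₀ zero_le zero_le (by omega)).mp h1
  have key : ∀ θ : K, θ ^ d = 1 → ∃ m : ℕ, w (x - θ * y) * ρ ^ ((d - 1) * m) = ρ := by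
    intro θ hθ
    have hne : x - θ * y ≠ 0 := by
      intro h
      apply hxy
      rw [sub_eq_zero.mp h, mul_pow, hθ, one_mul]
    have hne' : w (x - θ * y) ≠ 0 := (w.ne_zero_iff).mpr hne
    obtain ⟨k, hk⟩ := MulArchimedean.arch (ρ / w (x - θ * y)) hρ1
    refine bad_dist w hd hζ hwd hρ1 hval k x (θ * y) hx (prePer_root_mul hθ hy) ?_
    rw [div_le_iff₀ (zero_lt_iff.mpr hne')] at hk
    rwa [mul_comm]
  obtain ⟨m, hm⟩ := key η hη
  obtain ⟨m', hm'⟩ := key η' hη'
  refine ⟨ρ ^ m' / ρ ^ m, ?_⟩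
  have e1 : w (x - η * y) = ρ / ρ ^ ((d - 1) * m) := by
    rw [eq_div_iff (pow_ne_zero _ hρ0)]
    exact hm
  have e2 : w (x - η' * y) = ρ / ρ ^ ((d - 1) * m') := by
    rw [eq_div_iff (pow_ne_zero _ hρ0)]
    exact hm'
  rw [map_div₀, e1, e2, div_pow, ← pow_mul, ← pow_mul, mul_comm m', mul_comm m]
  rw [div_div_div_cancel_left' _ _ hρ0]

/-! ### Good places -/

theorem val_sub_le_one {u t : K} (hu : w u ≤ 1) (ht : w t ≤ 1) : w (u - t) ≤ 1 :=
  (w.map_sub _ _).trans (max_le hu ht)

theorem val_F_le_one {d : ℕ} {c u : K} (hc : w c ≤ 1) (hu : w u ≤ 1) : w (F d c u) ≤ 1 := by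
  unfold F
  refine (w.map_add _ _).trans (max_le ?_ hc)
  rw [map_pow]
  exact pow_le_one' hu d

theorem nonexp {d : ℕ} (hd : 2 ≤ d) {ζ : K} (hζ : IsPrimitiveRoot ζ d) {c u t : K}
    (hu : w u ≤ 1) (ht : w t ≤ 1) : w (F d c u - F d c t) ≤ w (u - t) := by
  have h1 : F d c u - F d c t = u ^ d - t ^ d := by
    unfold F; ring
  rw [h1, val_pow_sub_pow w hd hζ]
  refine mul_le_of_le_one_right' (Finset.prod_le_one' fun η hη => ?_)
  rw [mem_erase_roots hd] at hη
  refine val_sub_le_one w hu ?_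
  rw [map_mul, val_root w (by omega) hη.2, one_mul]
  exact ht

theorem val_iter_le_one {d : ℕ} {c u : K} (hc : w c ≤ 1) (hu : w u ≤ 1) (k : ℕ) :
    w ((F d c)^[k] u) ≤ 1 := by
  induction k with
  | zero => exact hu
  | succ k ih =>
    rw [Function.iterate_succ_apply']
    exact val_F_le_one w hc ih

theorem nonexp_iter {d : ℕ} (hd : 2 ≤ d) {ζ : K} (hζ : IsPrimitiveRoot ζ d) {c u t : K}
    (hc : w c ≤ 1) (hu : w u ≤ 1) (ht : w t ≤ 1) (k : ℕ) :
    w ((F d c)^[k] u - (F d c)^[k] t) ≤ w (u - t) := by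
  induction k with
  | zero => exact le_rfl
  | succ k ih =>
    rw [Function.iterate_succ_apply', Function.iterate_succ_apply']
    exact (nonexp w hd hζ (val_iter_le_one w hc hu k) (val_iter_le_one w hc ht k)).trans ih

theorem per_good {d : ℕ} (hd : 2 ≤ d) {ζ : K} (hζ : IsPrimitiveRoot ζ d) {c x y : K}
    (hc : w c ≤ 1) (hx : x ∈ Per d c) (hy : y ∈ Per d c) (hxy : x ≠ y) {η : K} (hη : η ^ d = 1)
    (hη1 : η ≠ 1) : w (x - η * y) = 1 := by
  have hx1 : w x ≤ 1 := val_good w hd hc (prePer_of_per hx)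
  have hy1 : w y ≤ 1 := val_good w hd hc (prePer_of_per hy)
  obtain ⟨n, hn, hxn⟩ := hx
  obtain ⟨m, hm, hym⟩ := hy
  have hxN : (F d c)^[n * m] x = x := by
    rw [Function.iterate_mul]
    exact Function.iterate_fixed hxn m
  have hyN : (F d c)^[n * m] y = y := by
    rw [mul_comm, Function.iterate_mul]
    exact Function.iterate_fixed hym n
  obtain ⟨N, hN⟩ : ∃ N, n * m = N + 1 := ⟨n * m - 1, by
    have := Nat.mul_pos hn hm
    omega⟩
  rw [hN, Function.iterate_succ_apply] at hxN hyN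
  have h1 : w (x - y) ≤ w (F d c x - F d c y) := by
    have := nonexp_iter w hd hζ hc (val_F_le_one (d := d) w hc hx1)
      (val_F_le_one (d := d) w hc hy1) N
    rwa [hxN, hyN] at this
  have h2 : F d c x - F d c y = x ^ d - y ^ d := by
    unfold F; ring
  have hle : ∀ θ ∈ (nthRootsFinset d (1 : K)).erase 1, w (x - θ * y) ≤ 1 := by
    intro θ hθ
    rw [mem_erase_roots hd] at hθ
    refine val_sub_le_one w hx1 ?_
    rw [map_mul, val_root w (by omega) hθ.2, one_mul]
    exact hy1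
  rw [h2, val_pow_sub_pow w hd hζ] at h1
  have h0 : w (x - y) ≠ 0 := (w.ne_zero_iff).mpr (sub_ne_zero.mpr hxy)
  have h3 : ∏ θ ∈ (nthRootsFinset d (1 : K)).erase 1, w (x - θ * y) = 1 := by
    refine le_antisymm (Finset.prod_le_one' hle) ?_
    by_contra h
    rw [not_le] at h
    have : w (x - y) * ∏ θ ∈ (nthRootsFinset d (1 : K)).erase 1, w (x - θ * y) < w (x - y) * 1 :=
      mul_lt_mul_of_pos_left h (zero_lt_iff.mpr h0)
    rw [mul_one] at this
    exact absurd h1 (not_le.mpr this)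
  exact eq_one_of_prod hle h3 η ((mem_erase_roots hd).mpr ⟨hη1, hη⟩)

theorem per_pow_ne {d : ℕ} {c x y : K} (hx : x ∈ Per d c) (hy : y ∈ Per d c) (hxy : x ≠ y) :
    x ^ d ≠ y ^ d := by
  intro h
  apply hxy
  obtain ⟨n, hn, hxn⟩ := hx
  obtain ⟨m, hm, hym⟩ := hy
  have hxN : (F d c)^[n * m] x = x := by
    rw [Function.iterate_mul]
    exact Function.iterate_fixed hxn m
  have hyN : (F d c)^[n * m] y = y := by
    rw [mul_comm, Function.iterate_mul]
    exact Function.iterate_fixed hym n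
  obtain ⟨N, hN⟩ : ∃ N, n * m = N + 1 := ⟨n * m - 1, by
    have := Nat.mul_pos hn hm
    omega⟩
  rw [hN, Function.iterate_succ_apply] at hxN hyN
  have : F d c x = F d c y := by
    unfold F; rw [h]
  rw [← hxN, ← hyN, this]

/-! ### Tails -/

theorem iter_chain {d : ℕ} {c : K} {m : ℕ} {z : ℕ → K} (hz : ∀ i < m, F d c (z (i + 1)) = z i)
    (a b : ℕ) (hab : a + b ≤ m) : (F d c)^[a] (z (a + b)) = z b := by
  induction a with
  | zero => simp
  | succ a ih =>
    have h1 : a + 1 + b = (a + b) + 1 := by ring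
    rw [Function.iterate_succ_apply, h1, hz (a + b) (by omega)]
    exact ih (by omega)

theorem chain_prePer {d : ℕ} {c : K} {N m : ℕ} (hN : 0 < N) {z : ℕ → K}
    (hz : ∀ i < m, F d c (z (i + 1)) = z i) (hper : (F d c)^[N] (z 0) = z 0) (i : ℕ)
    (hi : i ≤ m) : z i ∈ PrePer d c := by
  induction i with
  | zero => exact prePer_of_per ⟨N, hN, hper⟩
  | succ i ih =>
    apply prePer_of_map
    rw [hz i (by omega)]
    exact ih (by omega)

theorem chain_pow_ne {d : ℕ} {c : K} {N m : ℕ} (hN : 0 < N) {z : ℕ → K}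
    (hz : ∀ i < m, F d c (z (i + 1)) = z i) (hper : (F d c)^[N] (z 0) = z 0)
    (hnot : z 1 ∉ Per d c) {i j : ℕ} (hij : j < i) (hj : 1 ≤ j) (him : i ≤ m) :
    z i ^ d ≠ z j ^ d := by
  intro h
  apply hnot
  have h1 : z (i - 1) = z (j - 1) := by
    have e1 := hz (i - 1) (by omega)
    have e2 := hz (j - 1) (by omega)
    rw [show i - 1 + 1 = i by omega] at e1
    rw [show j - 1 + 1 = j by omega] at e2
    rw [← e1, ← e2]
    unfold F
    rw [h]
  have h2 : z (i - j) = z 0 := by
    have e1 := iter_chain hz (j - 1) (i - j) (by omega)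
    have e2 := iter_chain hz (j - 1) 0 (by omega)
    rw [show j - 1 + (i - j) = i - 1 by omega] at e1
    rw [add_zero] at e2
    rw [← e1, ← e2, h1]
  have h3 := iter_chain hz (i - j - 1) 1 (by omega)
  rw [show i - j - 1 + 1 = i - j by omega, h2] at h3
  refine ⟨N, hN, ?_⟩
  rw [← h3, ← Function.iterate_add_apply, add_comm, Function.iterate_add_apply, hper]

theorem tail_good {d : ℕ} (hd : 2 ≤ d) {ζ : K} (hζ : IsPrimitiveRoot ζ d) (hwd : w (d : K) = 1)
    {c : K} (hc : w c ≤ 1) {N : ℕ} (hN : 0 < N) {m : ℕ} {z : ℕ → K}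
    (hz : ∀ i < m, F d c (z (i + 1)) = z i) (hper : (F d c)^[N] (z 0) = z 0)
    (hnot : z 1 ∉ Per d c) {i j : ℕ} (hij : j < i) (hj : 1 ≤ j) (him : i ≤ m)
    (hmod : j % N = 1 % N) (hmod' : i % N = 1 % N) (hzi : z i ≠ 0) {η : K}
    (hη : η ^ d = 1) : w (z i - η * z j) = max (w (z i)) (w (z j)) := by
  have hint : ∀ k ≤ m, w (z k) ≤ 1 := fun k hk => val_good w hd hc (chain_prePer hN hz hper k hk)
  have hmul : ∀ θ : K, θ ^ d = 1 → ∀ y : K, w (θ * y) = w y := by
    intro θ hθ y
    rw [map_mul, val_root w (by omega) hθ, one_mul]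
  -- the periodic preimage of `z 0`
  set p : K := (F d c)^[N - 1] (z 0) with hp
  have hFp : F d c p = z 0 := by
    have h1 := Function.iterate_succ_apply' (F d c) (N - 1) (z 0)
    rw [Nat.succ_eq_add_one, show N - 1 + 1 = N by omega, hper] at h1
    exact h1.symm
  have hpN : (F d c)^[N] p = p := by
    rw [hp, ← Function.iterate_add_apply, add_comm, Function.iterate_add_apply, hper]
  have hpper : p ∈ Per d c := ⟨N, hN, hpN⟩
  have hp1 : w p ≤ 1 := val_good w hd hc (prePer_of_per hpper)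
  have hz1 : F d c (z 1) = z 0 := hz 0 (by omega)
  have hne : z 1 ≠ p := fun h => hnot (h ▸ hpper)
  have hpow : z 1 ^ d = p ^ d := by
    have h1 : F d c (z 1) = F d c p := hz1.trans hFp.symm
    unfold F at h1
    exact add_right_cancel h1
  have hp0 : p ≠ 0 := by
    intro h
    rw [h, zero_pow (by omega)] at hpow
    exact hne ((pow_eq_zero_iff (by omega)).mp hpow ▸ h.symm)
  set η₁ : K := z 1 / p with hη₁
  have hz1p : z 1 = η₁ * p := by rw [hη₁, div_mul_cancel₀ _ hp0]
  have hη₁d : η₁ ^ d = 1 := by rw [hη₁, div_pow, hpow, div_self (pow_ne_zero _ hp0)]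
  have hη₁1 : η₁ ≠ 1 := by
    intro h
    rw [h, one_mul] at hz1p
    exact hne hz1p
  have hw1 : w (z 1) = w p := by rw [hz1p]; exact hmul _ hη₁d _
  have hw1p : w (z 1 - p) = w p := by
    have h1 : z 1 - p = -((1 - η₁) * p) := by rw [hz1p]; ring
    rw [h1, w.map_neg, map_mul, val_one_sub_root w hd hζ hwd hη₁d hη₁1, one_mul]
  have hNrep : ∀ (r : ℕ) (y : K), (F d c)^[N] y = y → (F d c)^[N * r] y = y := by
    intro r y hy
    rw [Function.iterate_mul]
    exact Function.iterate_fixed hy r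
  -- suppose the contrary
  by_contra hcon
  have hwj : w (η * z j) = w (z j) := hmul η hη _
  have hlt : w (z i - η * z j) < max (w (z i)) (w (z j)) := by
    refine lt_of_le_of_ne ?_ hcon
    have := w.map_sub (z i) (η * z j)
    rwa [hwj] at this
  have heq : w (z i) = w (z j) := by
    rcases lt_trichotomy (w (z i)) (w (z j)) with h | h | h
    · exfalso
      apply hcon
      rw [w.map_sub_eq_of_lt_right (by rw [hwj]; exact h), hwj, max_eq_right h.le]
    · exact h
    · exfalso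
      apply hcon
      rw [w.map_sub_eq_of_lt_left (by rw [hwj]; exact h), max_eq_left h.le]
  set a := w (z j) with ha
  rw [heq, max_self] at hlt
  have ha0 : a ≠ 0 := by rw [← heq]; exact (w.ne_zero_iff).mpr hzi
  have ha1 : a ≤ 1 := hint j (by omega)
  have hstep : w (z (i - 1) - z (j - 1)) < a ^ d := by
    have e1 := hz (i - 1) (by omega)
    have e2 := hz (j - 1) (by omega)
    rw [show i - 1 + 1 = i by omega] at e1
    rw [show j - 1 + 1 = j by omega] at e2
    have e3 : z (i - 1) - z (j - 1) = z i ^ d - (η * z j) ^ d := by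
      rw [← e1, ← e2, mul_pow, hη, one_mul]
      unfold F
      ring
    rw [e3, val_pow_sub_pow w hd hζ]
    have e4 : ∏ θ ∈ (nthRootsFinset d (1 : K)).erase 1, w (z i - θ * (η * z j)) ≤ a ^ (d - 1) := by
      rw [← card_erase_roots hd hζ, ← Finset.prod_const]
      refine Finset.prod_le_prod' fun θ hθ => ?_
      rw [mem_erase_roots hd] at hθ
      refine (w.map_sub _ _).trans ?_
      rw [hmul θ hθ.2, hwj, heq, max_self]
    calc w (z i - η * z j) * ∏ θ ∈ (nthRootsFinset d (1 : K)).erase 1, w (z i - θ * (η * z j))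
        ≤ w (z i - η * z j) * a ^ (d - 1) := mul_le_mul_right e4 _
      _ < a * a ^ (d - 1) :=
          mul_lt_mul_of_pos_right hlt (zero_lt_iff.mpr (pow_ne_zero _ ha0))
      _ = a ^ d := by rw [← pow_succ', show d - 1 + 1 = d by omega]
  -- push forward
  obtain ⟨s, hs⟩ : N ∣ i - j := (Nat.modEq_iff_dvd' hij.le).mp (hmod.trans hmod'.symm)
  obtain ⟨s, rfl⟩ : ∃ s', s = s' + 1 := ⟨s - 1, by
    rcases s with _ | s
    · rw [mul_zero] at hs; omega
    · rfl⟩
  have hpush1 : w (z (i - j) - z 0) < a ^ d := by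
    refine lt_of_le_of_lt ?_ hstep
    have e1 := iter_chain hz (j - 1) (i - j) (by omega)
    have e2 := iter_chain hz (j - 1) 0 (by omega)
    rw [show j - 1 + (i - j) = i - 1 by omega] at e1
    rw [add_zero] at e2
    rw [← e1, ← e2]
    exact nonexp_iter w hd hζ hc (hint _ (by omega)) (hint _ (by omega)) _
  have hNs : N * (s + 1) = N * s + N := by ring
  have hpush2 : w (z (N * s + 1) - p) < a ^ d := by
    refine lt_of_le_of_lt ?_ hpush1
    have e1 := iter_chain hz (N - 1) (N * s + 1) (by omega)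
    rw [show N - 1 + (N * s + 1) = i - j by omega] at e1
    rw [← e1, hp]
    exact nonexp_iter w hd hζ hc (hint _ (by omega)) (hint _ (by omega)) _
  have hpush3 : w p < a ^ d := by
    rw [← hw1p]
    refine lt_of_le_of_lt ?_ hpush2
    have e1 := iter_chain hz (N * s) 1 (by omega)
    have e2 := hNrep s p hpN
    conv_lhs => rw [← e1, ← e2]
    exact nonexp_iter w hd hζ hc (hint _ (by omega)) hp1 _
  have hpw0 : w p ≠ 0 := (w.ne_zero_iff).mpr hp0
  rcases ha1.lt_or_eq with hlt1 | heq1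
  · -- case a < 1
    have hp1' : w p < 1 := hpush3.trans_le (pow_le_one' ha1 d)
    have hpd : w p ^ d < w p := pow_lt_self_of_lt_one₀ (zero_lt_iff.mpr hpw0) hp1' (by omega)
    have key : ∀ r : ℕ, 1 + N * (r + 1) ≤ m →
        (w p ≤ w (z (1 + N * r)) ∧ w (z (1 + N * r) - p) = w (z (1 + N * r))) →
        (w p ≤ w (z (1 + N * (r + 1))) ∧
          w (z (1 + N * (r + 1)) - p) = w (z (1 + N * (r + 1)))) ∧
        w (z (1 + N * r)) ≤ w (z (1 + N * (r + 1))) ^ d := by
      intro r hr hQ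
      have hNr : N * (r + 1) = N * r + N := by ring
      have e0 : w (z (1 + N * r) - p) ≤ w (z (N * (r + 1)) - z 0) := by
        have e1 := iter_chain hz (N - 1) (1 + N * r) (by omega)
        rw [show N - 1 + (1 + N * r) = N * (r + 1) by omega] at e1
        rw [← e1, hp]
        exact nonexp_iter w hd hζ hc (hint _ (by omega)) (hint _ (by omega)) _
      have e1 : z (N * (r + 1)) - z 0 = z (1 + N * (r + 1)) ^ d - p ^ d := by
        have e2 := hz (N * (r + 1)) (by omega)
        rw [← hFp, ← e2, add_comm 1 (N * (r + 1))]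
        unfold F
        ring
      rw [hQ.2, e1] at e0
      have e2 : w (z (1 + N * r)) ≤ max (w (z (1 + N * (r + 1)))) (w p) ^ d := by
        refine e0.trans ((w.map_sub _ _).trans ?_)
        rw [map_pow, map_pow]
        exact max_le (pow_le_pow_left' (le_max_left _ _) d) (pow_le_pow_left' (le_max_right _ _) d)
      have e3 : w p < w (z (1 + N * (r + 1))) := by
        by_contra h
        rw [not_lt] at h
        rw [max_eq_right h] at e2
        exact absurd (hQ.1.trans e2) (not_le.mpr hpd)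
      rw [max_eq_left e3.le] at e2
      exact ⟨⟨e3.le, w.map_sub_eq_of_lt_left e3⟩, e2⟩
    have hQ : ∀ r : ℕ, 1 + N * r ≤ m →
        (w p ≤ w (z (1 + N * r)) ∧ w (z (1 + N * r) - p) = w (z (1 + N * r))) := by
      intro r
      induction r with
      | zero =>
        intro _
        rw [mul_zero, add_zero, hw1, hw1p]
        exact ⟨le_rfl, rfl⟩
      | succ r ih =>
        intro hr
        have hNr : N * (r + 1) = N * r + N := by ring
        exact (key r hr (ih (by omega))).1
    have hmono : ∀ t r : ℕ, 1 + N * (r + t) ≤ m → w (z (1 + N * r)) ≤ w (z (1 + N * (r + t))) := by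
      intro t
      induction t with
      | zero => intro r _; exact le_rfl
      | succ t ih =>
        intro r hr
        have hNr : N * (r + (t + 1)) = N * (r + t) + N := by ring
        refine (ih r (by omega)).trans ?_
        have h2 := (key (r + t) hr (hQ _ (by omega))).2
        refine h2.trans ?_
        have h3 : w (z (1 + N * (r + t + 1))) ≤ 1 := hint _ hr
        exact pow_le_of_le_one zero_le h3 (by omega)
    obtain ⟨rj, hrj⟩ : ∃ r, j = 1 + N * r := by
      obtain ⟨r, hr⟩ : N ∣ j - 1 := (Nat.modEq_iff_dvd' hj).mp hmod.symm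
      exact ⟨r, by omega⟩
    have hi : i = 1 + N * (rj + s + 1) := by
      have e1 : N * (rj + s + 1) = N * rj + N * (s + 1) := by ring
      omega
    have h1 := hmono s rj (by
      have e1 : N * (rj + s + 1) = N * (rj + s) + N := by ring
      omega)
    have h2 := (key (rj + s) (by omega) (hQ _ (by
      have e1 : N * (rj + s + 1) = N * (rj + s) + N := by ring
      omega))).2
    rw [← hrj] at h1
    rw [← hi, heq] at h2
    have h3 : a ^ d < a := pow_lt_self_of_lt_one₀ (zero_lt_iff.mpr ha0) hlt1 (by omega)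
    exact absurd (h1.trans h2) (not_le.mpr h3)
  · -- case a = 1
    rw [heq1, one_pow] at hstep hpush3
    set k := i - j with hk
    have hjm : w (z (j - 1)) ≤ 1 := hint _ (by omega)
    have hA : w ((F d c)^[k] (z (j - 1)) - z (j - 1)) < 1 := by
      have e1 := iter_chain hz k (j - 1) (by omega)
      rw [show k + (j - 1) = i - 1 by omega] at e1
      rw [w.map_sub_swap]
      conv_lhs => rw [← e1]
      rw [e1]
      have e2 := nonexp_iter w hd hζ hc (hint (i - 1) (by omega)) hjm k (d := d)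
      rw [e1] at e2
      exact e2.trans_lt hstep
    have hB : ∀ t : ℕ, w ((F d c)^[k * t] (z (j - 1)) - z (j - 1)) < 1 := by
      intro t
      induction t with
      | zero =>
        rw [mul_zero, Function.iterate_zero, id, sub_self, map_zero]
        exact zero_lt_one
      | succ t ih =>
        have e1 : (F d c)^[k * (t + 1)] (z (j - 1)) =
            (F d c)^[k] ((F d c)^[k * t] (z (j - 1))) := by
          rw [← Function.iterate_add_apply]
          congr 2
          ring
        have e2 : (F d c)^[k * (t + 1)] (z (j - 1)) - z (j - 1) =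
            ((F d c)^[k] ((F d c)^[k * t] (z (j - 1))) - (F d c)^[k] (z (j - 1))) +
              ((F d c)^[k] (z (j - 1)) - z (j - 1)) := by
          rw [e1]; ring
        rw [e2]
        refine w.map_add_lt ?_ hA
        exact (nonexp_iter w hd hζ hc (val_iter_le_one w hc hjm _) hjm k).trans_lt ih
    obtain ⟨rj, hrj⟩ : N ∣ j - 1 := (Nat.modEq_iff_dvd' hj).mp hmod.symm
    have hC : (F d c)^[k * (j - 1)] (z (j - 1)) = z 0 := by
      have e1 := iter_chain hz (j - 1) 0 (by omega)
      rw [add_zero] at e1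
      have e2 : k * (j - 1) = N * ((k - 1) * rj) + (j - 1) := by
        obtain ⟨k', hk'⟩ : ∃ k', k = k' + 1 := ⟨k - 1, by omega⟩
        rw [hk', hrj, Nat.add_sub_cancel]
        ring
      rw [e2, Function.iterate_add_apply, e1]
      exact hNrep _ _ hper
    have hD := hB (j - 1)
    rw [hC] at hD
    have e2 := hz (j - 1) (by omega)
    rw [show j - 1 + 1 = j by omega] at e2
    have e3 : z j ^ d = p ^ d - (z 0 - z (j - 1)) := by
      have e4 := hFp
      unfold F at e2 e4
      rw [← e2, ← e4]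
      ring
    have e5 : w (z j ^ d) < 1 := by
      rw [e3]
      refine lt_of_le_of_lt (w.map_sub _ _) (max_lt ?_ hD)
      rw [map_pow]
      exact pow_lt_one' hpush3 (by omega)
    rw [map_pow, ← ha, heq1, one_pow] at e5
    exact lt_irrefl _ e5

end General

end CtrlAux

open CtrlAux

theorem ctrl_of_per {K : Type*} [Field K] [NumberField K] (d : ℕ) (hd : 2 ≤ d) (ζ : K)
    (hζ : IsPrimitiveRoot ζ d) (c : K) {x y : K} (hx : x ∈ Per d c) (hy : y ∈ Per d c)
    (hxy : x ≠ y) (hx0 : x ≠ 0) (hy0 : y ≠ 0) : Ctrl d (d - 1) x y := by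
  refine ⟨hx0, hy0, per_pow_ne hx hy hxy, ?_⟩
  intro η η' hη hη' hη1 hη1' v hv
  rcases le_or_gt (v.valuation K c) 1 with hc | hc
  · refine ⟨1, ?_⟩
    rw [map_div₀, per_good _ hd hζ hc hx hy hxy hη hη1, per_good _ hd hζ hc hx hy hxy hη' hη1',
      div_one, one_pow]
  · exact ratio_bad _ hd hζ hv hc (prePer_of_per hx) (prePer_of_per hy) (per_pow_ne hx hy hxy)
      hη hη'

theorem ctrl_of_tail {K : Type*} [Field K] [NumberField K] (d : ℕ) (hd : 2 ≤ d) (ζ : K)
    (hζ : IsPrimitiveRoot ζ d) (c : K) (N : ℕ) (hN : 0 < N) (m : ℕ) (z : ℕ → K)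
    (hz : ∀ i < m, F d c (z (i + 1)) = z i) (hper : (F d c)^[N] (z 0) = z 0)
    (hnot : z 1 ∉ Per d c) {i j : ℕ} (hij : j < i) (hj : 1 ≤ j) (him : i ≤ m)
    (hmod : j % N = 1 % N) (hmod' : i % N = 1 % N) (hzi : z i ≠ 0) (hzj : z j ≠ 0) :
    Ctrl d (d - 1) (z i) (z j) := by
  have hne := chain_pow_ne hN hz hper hnot hij hj him
  refine ⟨hzi, hzj, hne, ?_⟩
  intro η η' hη hη' hη1 hη1' v hv
  rcases le_or_gt (v.valuation K c) 1 with hc | hc
  · refine ⟨1, ?_⟩
    rw [map_div₀, tail_good _ hd hζ hv hc hN hz hper hnot hij hj him hmod hmod' hzi hη,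
      tail_good _ hd hζ hv hc hN hz hper hnot hij hj him hmod hmod' hzi hη', div_self, one_pow]
    have h0 : v.valuation K (z i) ≠ 0 := ((v.valuation K).ne_zero_iff).mpr hzi
    exact (lt_of_lt_of_le (zero_lt_iff.mpr h0) (le_max_left _ _)).ne'
  · exact ratio_bad _ hd hζ hv hc (chain_prePer hN hz hper i him)
      (chain_prePer hN hz hper j (by omega)) hne hη hη'

end Pool.Agent.MP90787a.MW
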