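import Mathlib

/-!
# Cells in an abelian group with a quasi-quadratic height
-/

set_option autoImplicit false

namespace Pool.Agent.MP90787a.MW

section aux

variable {G : Type*} [AddCommGroup G] {h : G → ℝ} {C : ℝ}

theorem gc_C_nonneg (hpar : ∀ P Q, |h (P + Q) + h (P - Q) - 2 * (h P + h Q)| ≤ C) : 0 ≤ C :=
  (abs_nonneg _).trans (hpar 0 0)

theorem gc_zero (hpar : ∀ P Q, |h (P + Q) + h (P - Q) - 2 * (h P + h Q)| ≤ C) :
    h 0 ≤ C / 2 := by
  have h1 := hpar 0 0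
  rw [add_zero, sub_zero] at h1
  have h2 := (abs_le.1 h1).1
  linarith

theorem gc_add (h0 : ∀ P, 0 ≤ h P)
    (hpar : ∀ P Q, |h (P + Q) + h (P - Q) - 2 * (h P + h Q)| ≤ C) (P Q : G) :
    h (P + Q) ≤ 2 * h P + 2 * h Q + C := by
  have h1 := (abs_le.1 (hpar P Q)).2
  have h2 := h0 (P - Q)
  linarith

theorem gc_sub (h0 : ∀ P, 0 ≤ h P)
    (hpar : ∀ P Q, |h (P + Q) + h (P - Q) - 2 * (h P + h Q)| ≤ C) (P Q : G) :
    h (P - Q) ≤ 2 * h P + 2 * h Q + C := by
  have h1 := (abs_le.1 (hpar P Q)).2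
  have h2 := h0 (P + Q)
  linarith

theorem gc_double_le (h0 : ∀ P, 0 ≤ h P)
    (hpar : ∀ P Q, |h (P + Q) + h (P - Q) - 2 * (h P + h Q)| ≤ C) (P : G) :
    h (P + P) ≤ 4 * h P + C := by
  have h1 := gc_add h0 hpar P P
  linarith

theorem gc_le_double
    (hpar : ∀ P Q, |h (P + Q) + h (P - Q) - 2 * (h P + h Q)| ≤ C) (P : G) :
    4 * h P - 3 * C / 2 ≤ h (P + P) := by
  have h1 := (abs_le.1 (hpar P P)).1
  have h2 := gc_zero hpar
  rw [sub_self] at h1
  linarith

theorem gc_pow_le (h0 : ∀ P, 0 ≤ h P)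
    (hpar : ∀ P Q, |h (P + Q) + h (P - Q) - 2 * (h P + h Q)| ≤ C) (P : G) (l : ℕ) :
    h ((2 ^ l) • P) + C / 3 ≤ 4 ^ l * (h P + C / 3) := by
  induction l with
  | zero => simp
  | succ l ih =>
    have h1 : (2 ^ (l + 1)) • P = (2 ^ l) • P + (2 ^ l) • P := by
      rw [pow_succ, mul_comm, mul_smul, two_smul]
    rw [h1]
    have h2 := gc_double_le h0 hpar ((2 ^ l) • P)
    have h3 : (4 : ℝ) ^ (l + 1) = 4 * 4 ^ l := by ring
    rw [h3]
    linarith

theorem gc_le_pow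
    (hpar : ∀ P Q, |h (P + Q) + h (P - Q) - 2 * (h P + h Q)| ≤ C) (P : G) (l : ℕ) :
    4 ^ l * (h P - C / 2) ≤ h ((2 ^ l) • P) - C / 2 := by
  induction l with
  | zero => simp
  | succ l ih =>
    have h1 : (2 ^ (l + 1)) • P = (2 ^ l) • P + (2 ^ l) • P := by
      rw [pow_succ, mul_comm, mul_smul, two_smul]
    rw [h1]
    have h2 := gc_le_double hpar ((2 ^ l) • P)
    have h3 : (4 : ℝ) ^ (l + 1) = 4 * 4 ^ l := by ring
    rw [h3]
    linarith

theorem gc_sum (h0 : ∀ P, 0 ≤ h P)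
    (hpar : ∀ P Q, |h (P + Q) + h (P - Q) - 2 * (h P + h Q)| ≤ C) {CS A : ℝ}
    (hA : CS + C ≤ A) (hCS : 0 ≤ CS) (T : ℕ → G) (hT : ∀ i, h (T i) ≤ CS) (l : ℕ) :
    h (∑ i ∈ Finset.range l, (2 ^ i) • T i) ≤ 4 ^ l * A := by
  have hC := gc_C_nonneg hpar
  induction l with
  | zero =>
    have := gc_zero hpar
    simp only [Finset.range_zero, Finset.sum_empty, pow_zero, one_mul]
    linarith
  | succ l ih =>
    rw [Finset.sum_range_succ]
    have h1 := gc_add h0 hpar (∑ i ∈ Finset.range l, (2 ^ i) • T i) ((2 ^ l) • T l)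
    have h2 := gc_pow_le h0 hpar (T l) l
    have h3 : (4 : ℝ) ^ (l + 1) = 4 * 4 ^ l := by ring
    have h4 : (1 : ℝ) ≤ 4 ^ l := one_le_pow₀ (by norm_num)
    have h5 : 4 ^ l * (h (T l) + C / 3) ≤ 4 ^ l * (CS + C / 3) :=
      mul_le_mul_of_nonneg_left (by linarith [hT l]) (by positivity)
    have h6 : 4 ^ l * (CS + C) ≤ 4 ^ l * A := mul_le_mul_of_nonneg_left hA (by positivity)
    have h7 : C ≤ 4 ^ l * C := le_mul_of_one_le_left hC h4
    rw [h3]
    nlinarith

end aux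

theorem group_cells {G : Type*} [AddCommGroup G] (h : G → ℝ) (h0 : ∀ P, 0 ≤ h P) (C : ℝ)
    (hpar : ∀ P Q, |h (P + Q) + h (P - Q) - 2 * (h P + h Q)| ≤ C)
    (hN : ∀ B : ℝ, {P | h P ≤ B}.Finite) (S : Set G) (hS : S.Finite)
    (hdiv : ∀ P, ∃ s ∈ S, ∃ Q, P = s + (Q + Q)) :
    ∃ C' : ℝ, ∀ ε > 0, ∃ M : ℕ, ∀ H : ℝ, 1 ≤ H → ∃ κ : G → Fin M, ∀ P Q, h P ≤ H → h Q ≤ H →
      κ P = κ Q → h (P - Q) ≤ ε * H + C' := by
  classical
  have hC := gc_C_nonneg hpar
  choose s hs nx hnx using hdiv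
  -- bound on the digits and their differences
  obtain ⟨b₁, hb₁⟩ := (hS.image h).bddAbove
  have hb₁' : ∀ x ∈ S, h x ≤ b₁ := fun x hx => hb₁ (Set.mem_image_of_mem h hx)
  set CS : ℝ := 2 * |b₁| + 2 * |b₁| + C with hCSdef
  have hCS0 : 0 ≤ CS := by positivity
  have hCS1 : ∀ x ∈ S, h x ≤ CS := by
    intro x hx
    have h1 := hb₁' x hx
    have h2 := le_abs_self b₁
    have h3 := abs_nonneg b₁
    linarith
  have hCS2 : ∀ x ∈ S, ∀ y ∈ S, h (x - y) ≤ CS := by
    intro x hx y hy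
    have h1 := hb₁' x hx
    have h2 := hb₁' y hy
    have h3 := le_abs_self b₁
    have h4 := gc_sub h0 hpar x y
    linarith
  set A : ℝ := max 1 (CS + C) with hAdef
  have hA1 : 1 ≤ A := le_max_left _ _
  have hA2 : CS + C ≤ A := le_max_right _ _
  -- expansion
  have hexp : ∀ (l : ℕ) (P : G),
      P = ∑ i ∈ Finset.range l, (2 ^ i) • s (nx^[i] P) + (2 ^ l) • nx^[l] P := by
    intro l P
    induction l with
    | zero => simp
    | succ l ih =>
      rw [Finset.sum_range_succ, Function.iterate_succ_apply']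
      conv_lhs => rw [ih]
      conv_lhs => rw [hnx (nx^[l] P)]
      have h1 : (2 ^ (l + 1)) • nx (nx^[l] P) =
          (2 ^ l) • nx (nx^[l] P) + (2 ^ l) • nx (nx^[l] P) := by
        rw [pow_succ, mul_comm, mul_smul, two_smul]
      rw [h1, smul_add, smul_add]
      abel
  refine ⟨C, fun ε hε => ?_⟩
  set B : ℝ := 3 * C / 2 + 2 * A + 8 * A / ε with hB
  have hF := hN B
  let Fs : Finset G := hF.toFinset
  have hFs : ∀ P, P ∈ Fs ↔ h P ≤ B := by intro P; simp [Fs]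
  refine ⟨Fs.card + 1, fun H hH => ?_⟩
  -- choice of the level
  have hlev : ∃ l : ℕ, (∀ P, h P ≤ H → h (nx^[l] P) ≤ B) ∧ (A * 4 ^ l ≤ ε * H ∨ l = 0) := by
    by_cases hcase : A ≤ ε * H
    · -- maximal level
      have hex : ∃ l : ℕ, ε * H < A * 4 ^ (l + 1) := by
        obtain ⟨n, hn⟩ := pow_unbounded_of_one_lt (ε * H) (show (1 : ℝ) < 4 by norm_num)
        refine ⟨n, hn.trans_le ?_⟩
        calc (4 : ℝ) ^ n ≤ 4 ^ (n + 1) := pow_le_pow_right₀ (by norm_num) (Nat.le_succ n)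
          _ ≤ A * 4 ^ (n + 1) := le_mul_of_one_le_left (by positivity) hA1
      let l := Nat.find hex
      have hl : ε * H < A * 4 ^ (l + 1) := Nat.find_spec hex
      have hl' : A * 4 ^ l ≤ ε * H := by
        by_cases hl0 : l = 0
        · rw [hl0]; simpa using hcase
        · obtain ⟨m, hm⟩ := Nat.exists_eq_succ_of_ne_zero hl0
          have := Nat.find_min hex (m := m) (by
            show m < l
            omega)
          rw [not_lt] at this
          rw [hm]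
          exact this
      refine ⟨l, fun P hP => ?_, Or.inl hl'⟩
      have h4 : (0 : ℝ) < 4 ^ l := by positivity
      have h4' : (1 : ℝ) ≤ 4 ^ l := one_le_pow₀ (by norm_num)
      have e1 : (2 ^ l) • nx^[l] P = P - ∑ i ∈ Finset.range l, (2 ^ i) • s (nx^[i] P) := by
        have := hexp l P
        rw [eq_sub_iff_add_eq, add_comm]
        exact this.symm
      have e2 := gc_le_pow hpar (nx^[l] P) l
      have e3 := gc_sub h0 hpar P (∑ i ∈ Finset.range l, (2 ^ i) • s (nx^[i] P))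
      have e4 := gc_sum h0 hpar hA2 hCS0 (fun i => s (nx^[i] P)) (fun i => hCS1 _ (hs _)) l
      rw [← e1] at e3
      have e5 : 4 ^ l * (h (nx^[l] P) - C / 2) ≤ 2 * H + 2 * (4 ^ l * A) + C := by linarith
      have e6 : ε * H ≤ 4 * A * 4 ^ l := by
        have : (4 : ℝ) ^ (l + 1) = 4 * 4 ^ l := by ring
        rw [this] at hl
        linarith
      have e7 : H ≤ 4 * A / ε * 4 ^ l := by
        rw [div_mul_eq_mul_div, le_div_iff₀ hε]
        linarith
      have e8 : 4 ^ l * (h (nx^[l] P) - C / 2) ≤ 4 ^ l * (8 * A / ε + 2 * A + C) := by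
        have e9 : C ≤ 4 ^ l * C := le_mul_of_one_le_left hC h4'
        have e10 : 2 * H ≤ 4 ^ l * (8 * A / ε) := by
          have : 4 ^ l * (8 * A / ε) = 2 * (4 * A / ε * 4 ^ l) := by ring
          rw [this]
          linarith
        nlinarith
      have e9 := le_of_mul_le_mul_left e8 h4
      rw [hB]
      linarith
    · refine ⟨0, fun P hP => ?_, Or.inr rfl⟩
      rw [not_le] at hcase
      have e1 : H < A / ε := by rw [lt_div_iff₀ hε]; linarith
      have e2 : 8 * A / ε = 8 * (A / ε) := by ring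
      have e3 : 0 < A / ε := by positivity
      simp only [Function.iterate_zero, id]
      rw [hB, e2]
      linarith
  obtain ⟨l, hlB, hl⟩ := hlev
  let e : Fs ≃ Fin Fs.card := Fs.equivFin
  let κ : G → Fin (Fs.card + 1) := fun P =>
    if hP : nx^[l] P ∈ Fs then (e ⟨nx^[l] P, hP⟩).castSucc else Fin.last _
  refine ⟨κ, fun P Q hP hQ hPQ => ?_⟩
  have hP' : nx^[l] P ∈ Fs := (hFs _).2 (hlB P hP)
  have hQ' : nx^[l] Q ∈ Fs := (hFs _).2 (hlB Q hQ)
  have heq : nx^[l] P = nx^[l] Q := by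
    simp only [κ, dif_pos hP', dif_pos hQ'] at hPQ
    have h1 := Fin.castSucc_injective _ hPQ
    have h2 := e.injective h1
    exact congrArg Subtype.val h2
  have hdiff : P - Q = ∑ i ∈ Finset.range l, (2 ^ i) • (s (nx^[i] P) - s (nx^[i] Q)) := by
    have h1 := hexp l P
    have h2 := hexp l Q
    rw [heq] at h1
    simp only [smul_sub, Finset.sum_sub_distrib]
    calc P - Q = (∑ i ∈ Finset.range l, (2 ^ i) • s (nx^[i] P) + (2 ^ l) • nx^[l] Q) -
          (∑ i ∈ Finset.range l, (2 ^ i) • s (nx^[i] Q) + (2 ^ l) • nx^[l] Q) := by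
            rw [← h1, ← h2]
      _ = _ := by abel
  rcases hl with hl | hl
  · have h1 := gc_sum h0 hpar hA2 hCS0 (fun i => s (nx^[i] P) - s (nx^[i] Q))
      (fun i => hCS2 _ (hs _) _ (hs _)) l
    rw [hdiff]
    linarith
  · subst hl
    simp only [Function.iterate_zero, id] at heq
    rw [heq, sub_self]
    have h1 := gc_zero hpar
    have h2 : 0 < ε * H := by positivity
    linarith

end Pool.Agent.MP90787a.MW
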