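import Pool.Agent.Lib.MP_90787a_nt.MW.Defs

/-!
# Preperiodic points of `x ^ d + c` are close to root of unity multiples of each other
-/

namespace Pool.Agent.MP90787a.MW

open Height IsDedekindDomain NumberField Real AdmissibleAbsValues

universe u

namespace LocalCommonAux

variable {L : Type*} [Field L]

theorem prePer_F {d : ℕ} {c x : L} (hx : x ∈ PrePer d c) : F d c x ∈ PrePer d c := by
  obtain ⟨i, j, hij, h⟩ := hx
  refine ⟨i, j, hij, ?_⟩
  rw [← Function.iterate_succ_apply, ← Function.iterate_succ_apply, Function.iterate_succ_apply',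
    Function.iterate_succ_apply', h]

theorem not_prePer (v : AbsoluteValue L ℝ) {d : ℕ} {c : L} (P : L → Prop)
    (hP : ∀ y, P y → P (F d c y) ∧ v y < v (F d c y)) {x : L} (hx : P x) : x ∉ PrePer d c := by
  rintro ⟨i, j, hij, h⟩
  have h1 : ∀ n, P ((F d c)^[n] x) := by
    intro n
    induction n with
    | zero => exact hx
    | succ n ih =>
      rw [Function.iterate_succ_apply']
      exact (hP _ ih).1
  have h2 : StrictMono fun n => v ((F d c)^[n] x) := by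
    apply strictMono_nat_of_lt_succ
    intro n
    rw [Function.iterate_succ_apply']
    exact (hP _ (h1 n)).2
  have h3 := h2 hij
  simp only [h, lt_irrefl] at h3

theorem near_root (v : AbsoluteValue L ℝ) {κ : ℝ} (hκ : 1 ≤ κ)
    (hv : ∀ a b, v (a + b) ≤ κ * max (v a) (v b)) {n : ℕ} {ζ : L}
    (hζ : IsPrimitiveRoot ζ (n + 1)) (t : L) :
    ∃ k : Fin (n + 1), v (t - ζ ^ (k : ℕ)) * v ((n : L) + 1) ≤ κ ^ n * v (t ^ (n + 1) - 1) := by
  obtain ⟨k, hk⟩ := Finite.exists_min (fun k : Fin (n + 1) => v (t - ζ ^ (k : ℕ)))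
  refine ⟨k, ?_⟩
  have hζ0 : ζ ≠ 0 := hζ.ne_zero (Nat.succ_ne_zero n)
  have hvζ : v ζ = 1 := by
    have h1 : v ζ ^ (n + 1) = 1 := by rw [← map_pow, hζ.pow_eq_one, map_one]
    exact (pow_eq_one_iff_of_nonneg (v.nonneg _) (Nat.succ_ne_zero n)).1 h1
  have hvζk : v (ζ ^ (k : ℕ)) = 1 := by rw [map_pow, hvζ, one_pow]
  have hζk0 : ζ ^ (k : ℕ) ≠ 0 := pow_ne_zero _ hζ0
  set s : L := t / ζ ^ (k : ℕ) with hs
  have hst : s ^ (n + 1) = t ^ (n + 1) := by
    rw [hs, div_pow, ← pow_mul, mul_comm, pow_mul, hζ.pow_eq_one, one_pow, div_one]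
  have hs1 : v (s - 1) = v (t - ζ ^ (k : ℕ)) := by
    have : t - ζ ^ (k : ℕ) = (s - 1) * ζ ^ (k : ℕ) := by
      rw [hs]; field_simp
    rw [this, map_mul, hvζk, mul_one]
  have hmin : ∀ j : ℕ, v (s - 1) ≤ v (s - ζ ^ j) := by
    intro j
    have h1 : v (s - ζ ^ j) = v (t - ζ ^ (j + k)) := by
      have : t - ζ ^ (j + (k : ℕ)) = (s - ζ ^ j) * ζ ^ (k : ℕ) := by
        rw [hs, pow_add]; field_simp
      rw [this, map_mul, hvζk, mul_one]
    have h2 : ζ ^ (j + (k : ℕ)) = ζ ^ ((j + k) % (n + 1)) := by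
      conv_lhs => rw [← Nat.div_add_mod (j + k) (n + 1), pow_add, pow_mul, hζ.pow_eq_one, one_pow,
        one_mul]
    rw [hs1, h1, h2]
    exact hk ⟨(j + k) % (n + 1), Nat.mod_lt _ (Nat.succ_pos n)⟩
  have hfac : s ^ (n + 1) - 1 = (∏ i ∈ Finset.range n, (s - ζ ^ (i + 1))) * (s - 1) := by
    have h1 := X_pow_sub_C_eq_prod hζ n.zero_lt_succ (one_pow (n + 1))
    have h2 := congrArg (Polynomial.eval s) h1
    rw [Polynomial.eval_prod, Finset.prod_range_succ'] at h2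
    simpa using h2
  have hstep : ∀ i ∈ Finset.range n, v (1 - ζ ^ (i + 1)) ≤ κ * v (s - ζ ^ (i + 1)) := by
    intro i _
    have h1 : (1 : L) - ζ ^ (i + 1) = (s - ζ ^ (i + 1)) + (1 - s) := by ring
    rw [h1]
    refine (hv _ _).trans ?_
    apply mul_le_mul_of_nonneg_left _ (by linarith)
    apply max_le le_rfl
    rw [v.map_sub]
    exact hmin _
  have hprod : v ((n : L) + 1) ≤ κ ^ n * ∏ i ∈ Finset.range n, v (s - ζ ^ (i + 1)) := by
    rw [← hζ.prod_one_sub_pow_eq_order, map_prod]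
    refine (Finset.prod_le_prod (fun i _ => v.nonneg _) hstep).trans ?_
    rw [Finset.prod_mul_distrib, Finset.prod_const, Finset.card_range]
  rw [← hs1, ← hst, hfac, map_mul, map_prod, mul_comm (v (s - 1)), ← mul_assoc]
  exact mul_le_mul_of_nonneg_right hprod (v.nonneg _)

theorem assemble (v : AbsoluteValue L ℝ) {κ : ℝ} (hκ : 1 ≤ κ)
    (hv : ∀ a b, v (a + b) ≤ κ * max (v a) (v b)) {d : ℕ} (hd : 2 ≤ d) {ζ : L}
    (hζ : IsPrimitiveRoot ζ d) (hvd : 0 < v (d : L)) (x : Fin (4 * d + 1) → L)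
    (hx0 : ∀ i, x i ≠ 0) {ε ρ : ℝ} (hρ : 0 < ρ) (h1 : ∀ i, v ((x i / x 0) ^ d - 1) ≤ ε)
    (h2 : ∀ i, ρ ≤ v (x i / x 0)) :
    ∃ g : Fin 5 → Fin (4 * d + 1), StrictMono g ∧ ∀ i j, i ≠ j →
      v (x (g i) / x (g j) - 1) ≤ κ * (κ ^ (d - 1) * ε / v (d : L)) / ρ := by
  classical
  obtain ⟨n, rfl⟩ : ∃ n, d = n + 1 := ⟨d - 1, by omega⟩
  have hnear : ∀ i, ∃ k : Fin (n + 1),
      v (x i / x 0 - ζ ^ (k : ℕ)) ≤ κ ^ n * ε / v ((n + 1 : ℕ) : L) := by
    intro i
    obtain ⟨k, hk⟩ := near_root v hκ hv hζ (x i / x 0)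
    refine ⟨k, ?_⟩
    rw [le_div_iff₀ hvd]
    push_cast
    refine hk.trans ?_
    exact mul_le_mul_of_nonneg_left (h1 i) (pow_nonneg (by linarith) _)
  choose k hk using hnear
  obtain ⟨y, hy⟩ := Fintype.exists_lt_card_fiber_of_mul_lt_card (f := k) (n := 4)
    (by simp only [Fintype.card_fin]; omega)
  let g := Finset.orderEmbOfCardLe (Finset.univ.filter fun i => k i = y) (k := 5) hy
  have hg : ∀ i, k (g i) = y := fun i => by
    have := Finset.orderEmbOfCardLe_mem (Finset.univ.filter fun i => k i = y) hy i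
    exact (Finset.mem_filter.1 this).2
  refine ⟨g, g.strictMono, fun i j _ => ?_⟩
  have hi := hk (g i)
  have hj := hk (g j)
  rw [hg] at hi hj
  have hx0' := hx0 0
  have hxj := hx0 (g j)
  have e1 : x (g i) / x (g j) - 1 = ((x (g i) / x 0 - ζ ^ (y : ℕ)) +
      (ζ ^ (y : ℕ) - x (g j) / x 0)) / (x (g j) / x 0) := by
    field_simp
    ring
  rw [e1, map_div₀]
  rw [v.map_sub] at hj
  have h3 : v ((x (g i) / x 0 - ζ ^ (y : ℕ)) + (ζ ^ (y : ℕ) - x (g j) / x 0)) ≤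
      κ * (κ ^ n * ε / v ((n + 1 : ℕ) : L)) := by
    refine (hv _ _).trans ?_
    exact mul_le_mul_of_nonneg_left (max_le hi hj) (by linarith)
  rw [Nat.add_sub_cancel]
  exact div_le_div₀ ((v.nonneg _).trans h3) h3 hρ (h2 _)

end LocalCommonAux

open LocalCommonAux

theorem close_general {L : Type*} [Field L] [CharZero L] (v : AbsoluteValue L ℝ) (d : ℕ)
    (hd : 2 ≤ d) (ζ : L) (hζ : IsPrimitiveRoot ζ d) :
    ∃ A C : ℝ, 1 ≤ A ∧ 0 ≤ C ∧ ∀ (c : L) (x : Fin (4 * d + 1) → L), A ≤ v c →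
      (∀ i, x i ≠ 0 ∧ x i ∈ PrePer d c) →
      ∃ g : Fin 5 → Fin (4 * d + 1), StrictMono g ∧ ∀ i j, i ≠ j →
        v (x (g i) / x (g j) - 1) ≤ C * (v c) ^ (-(((d : ℝ) - 1) / d)) := by
  have hd0 : (d : L) ≠ 0 := Nat.cast_ne_zero.2 (by omega)
  have hdR : (d : ℝ) ≠ 0 := Nat.cast_ne_zero.2 (by omega)
  have hvd : 0 < v (d : L) := v.pos hd0
  have hv2 : ∀ a b, v (a + b) ≤ 2 * max (v a) (v b) := by
    intro a b
    have h1 := v.add_le a b
    have h2 := le_max_left (v a) (v b)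
    have h3 := le_max_right (v a) (v b)
    linarith
  refine ⟨16, 2 * (2 ^ (d - 1) * 8 / v (d : L)) * 4, by norm_num, by positivity, ?_⟩
  intro c x hc hx
  set R : ℝ := (v c) ^ ((d : ℝ)⁻¹) with hR
  have hc0 : (0 : ℝ) < v c := by linarith
  have hRpos : 0 < R := Real.rpow_pos_of_pos hc0 _
  have hR1 : 1 ≤ R := Real.one_le_rpow (by linarith) (by positivity)
  have hRd : R ^ d = v c := Real.rpow_inv_natCast_pow hc0.le (by omega)
  have h4R : 4 * R ≤ v c := by
    by_cases h : 4 ≤ R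
    · have h1 : R ^ 2 ≤ R ^ d := pow_le_pow_right₀ hR1 hd
      nlinarith
    · push Not at h
      linarith
  -- upper bound
  have hup : ∀ y ∈ PrePer d c, v y ≤ 2 * R := by
    intro y hy
    by_contra hlt
    push Not at hlt
    refine not_prePer v (fun y => 2 * R < v y) ?_ hlt hy
    intro y hy
    have e1 : v c ≤ v y ^ d / 4 := by
      have h1 : (2 * R) ^ d ≤ v y ^ d := pow_le_pow_left₀ (by positivity) hy.le d
      rw [mul_pow, hRd] at h1
      have h2 : (2 : ℝ) ^ 2 ≤ 2 ^ d := pow_le_pow_right₀ (by norm_num) hd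
      nlinarith
    have e2 : v y ^ 2 ≤ v y ^ d := pow_le_pow_right₀ (by linarith) hd
    have e3 : v y ^ d - v c ≤ v (F d c y) := by
      have := v.le_sub (y ^ d) (-c)
      rw [v.map_neg, map_pow, sub_neg_eq_add] at this
      exact this
    have e4 : v y < v (F d c y) := by nlinarith
    exact ⟨hy.trans e4, e4⟩
  have hpow : ∀ y ∈ PrePer d c, v y ^ d ≤ 2 ^ d * v c := by
    intro y hy
    have := pow_le_pow_left₀ (v.nonneg y) (hup y hy) d
    rwa [mul_pow, hRd] at this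
  have hlow : ∀ y ∈ PrePer d c, v c / 2 ≤ v y ^ d := by
    intro y hy
    have h1 := hup _ (prePer_F hy)
    have h2 : v c - v (F d c y) ≤ v (y ^ d) := by
      have := v.le_sub (-c) (-F d c y)
      rw [v.map_neg, v.map_neg] at this
      have e : -c - -F d c y = y ^ d := by rw [F]; ring
      rwa [e] at this
    rw [map_pow] at h2
    linarith
  have hdiff : ∀ y ∈ PrePer d c, ∀ y' ∈ PrePer d c, v (y ^ d - y' ^ d) ≤ 4 * R := by
    intro y hy y' hy'
    have e : y ^ d - y' ^ d = F d c y + -F d c y' := by rw [F, F]; ring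
    rw [e]
    have h1 := v.add_le (F d c y) (-F d c y')
    rw [v.map_neg] at h1
    have h2 := hup _ (prePer_F hy)
    have h3 := hup _ (prePer_F hy')
    linarith
  have hexp : R / v c = (v c) ^ (-(((d : ℝ) - 1) / d)) := by
    have : -(((d : ℝ) - 1) / d) = (d : ℝ)⁻¹ - 1 := by field_simp; ring
    rw [this, Real.rpow_sub hc0, Real.rpow_one, hR]
  have hA : ∀ i, v ((x i / x 0) ^ d - 1) ≤ 8 * (R / v c) := by
    intro i
    have hx0 := (hx 0).1
    have e : (x i / x 0) ^ d - 1 = (x i ^ d - x 0 ^ d) / x 0 ^ d := by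
      rw [div_pow, sub_div, div_self (pow_ne_zero d hx0)]
    rw [e, map_div₀, map_pow]
    have h1 := hdiff _ (hx i).2 _ (hx 0).2
    have h2 := hlow _ (hx 0).2
    have h3 : 8 * (R / v c) = (4 * R) / (v c / 2) := by field_simp; norm_num
    rw [h3]
    exact div_le_div₀ (by positivity) h1 (by positivity) h2
  have hB : ∀ i, 1 / 4 ≤ v (x i / x 0) := by
    intro i
    rw [map_div₀, le_div_iff₀ (v.pos (hx 0).1)]
    have h1 := hpow _ (hx 0).2
    have h2 := hlow _ (hx i).2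
    have h3 : (1 / 4 * v (x 0)) ^ d ≤ v (x i) ^ d := by
      refine le_trans ?_ h2
      rw [mul_pow]
      have h4 : (1 / 4 : ℝ) ^ d * 2 ^ d ≤ 1 / 2 := by
        rw [← mul_pow]
        have : (1 / 4 * 2 : ℝ) ^ d ≤ (1 / 4 * 2 : ℝ) ^ 1 :=
          pow_le_pow_of_le_one (by norm_num) (by norm_num) (by omega)
        linarith
      have h5 : (0 : ℝ) < (1 / 4 : ℝ) ^ d := by positivity
      calc (1 / 4 : ℝ) ^ d * v (x 0) ^ d ≤ (1 / 4 : ℝ) ^ d * (2 ^ d * v c) :=
            mul_le_mul_of_nonneg_left h1 h5.le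
        _ = (1 / 4 : ℝ) ^ d * 2 ^ d * v c := by ring
        _ ≤ 1 / 2 * v c := mul_le_mul_of_nonneg_right h4 hc0.le
        _ = v c / 2 := by ring
    exact le_of_pow_le_pow_left₀ (by omega) (v.nonneg _) h3
  obtain ⟨g, hg, hg'⟩ := assemble v (κ := 2) (by norm_num) hv2 hd hζ hvd x (fun i => (hx i).1)
    (by norm_num) hA hB
  refine ⟨g, hg, fun i j hij => (hg' i j hij).trans (le_of_eq ?_)⟩
  rw [← hexp]
  field_simp

theorem close_unit {L : Type*} [Field L] [CharZero L] (v : AbsoluteValue L ℝ)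
    (hv : IsNonarchimedean v) (d : ℕ) (hd : 2 ≤ d) (hvd : v (d : L) = 1)
    (ζ : L) (hζ : IsPrimitiveRoot ζ d) (c : L) (hc : 1 < v c) (x : Fin (4 * d + 1) → L)
    (hx : ∀ i, x i ≠ 0 ∧ x i ∈ PrePer d c) :
    ∃ g : Fin 5 → Fin (4 * d + 1), StrictMono g ∧ ∀ i j, i ≠ j →
        v (x (g i) / x (g j) - 1) ≤ (v c) ^ (-(((d : ℝ) - 1) / d)) := by
  have hdR : (d : ℝ) ≠ 0 := Nat.cast_ne_zero.2 (by omega)
  have hv1 : ∀ a b, v (a + b) ≤ 1 * max (v a) (v b) := by
    intro a b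
    rw [one_mul]
    exact hv a b
  set R : ℝ := (v c) ^ ((d : ℝ)⁻¹) with hR
  have hc0 : (0 : ℝ) < v c := by linarith
  have hRpos : 0 < R := Real.rpow_pos_of_pos hc0 _
  have hR1 : 1 < R := Real.one_lt_rpow hc (by positivity)
  have hRd : R ^ d = v c := Real.rpow_inv_natCast_pow hc0.le (by omega)
  have hRc : R < v c := by
    rw [← hRd]
    conv_lhs => rw [← pow_one R]
    exact pow_lt_pow_right₀ hR1 (by omega)
  have hup : ∀ y ∈ PrePer d c, v y ≤ R := by
    intro y hy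
    by_contra hlt
    push Not at hlt
    refine not_prePer v (fun y => R < v y) ?_ hlt hy
    intro y hy
    have e1 : v c < v (y ^ d) := by
      rw [map_pow, ← hRd]
      exact pow_lt_pow_left₀ hy hRpos.le (by omega)
    have e2 : v (F d c y) = v y ^ d := by
      rw [F, IsNonarchimedean.add_eq_max_of_ne hv e1.ne', max_eq_left e1.le, map_pow]
    have e3 : v y < v y ^ d := by
      conv_lhs => rw [← pow_one (v y)]
      exact pow_lt_pow_right₀ (hR1.trans hy) (by omega)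
    rw [e2]
    exact ⟨hy.trans e3, e3⟩
  have hval : ∀ y ∈ PrePer d c, v y ^ d = v c := by
    intro y hy
    have h1 := (hup _ (prePer_F hy)).trans_lt hRc
    have e : y ^ d = F d c y + -c := by rw [F]; ring
    rw [← map_pow, e, IsNonarchimedean.add_eq_max_of_ne hv (by rw [v.map_neg]; exact h1.ne),
      v.map_neg, max_eq_right h1.le]
  have hdiff : ∀ y ∈ PrePer d c, ∀ y' ∈ PrePer d c, v (y ^ d - y' ^ d) ≤ R := by
    intro y hy y' hy'
    have e : y ^ d - y' ^ d = F d c y + -F d c y' := by rw [F, F]; ring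
    rw [e]
    refine (hv _ _).trans ?_
    rw [v.map_neg]
    exact max_le (hup _ (prePer_F hy)) (hup _ (prePer_F hy'))
  have hexp : R / v c = (v c) ^ (-(((d : ℝ) - 1) / d)) := by
    have : -(((d : ℝ) - 1) / d) = (d : ℝ)⁻¹ - 1 := by field_simp; ring
    rw [this, Real.rpow_sub hc0, Real.rpow_one, hR]
  have hA : ∀ i, v ((x i / x 0) ^ d - 1) ≤ R / v c := by
    intro i
    have hx0 := (hx 0).1
    have e : (x i / x 0) ^ d - 1 = (x i ^ d - x 0 ^ d) / x 0 ^ d := by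
      rw [div_pow, sub_div, div_self (pow_ne_zero d hx0)]
    rw [e, map_div₀, map_pow, hval _ (hx 0).2]
    exact div_le_div_of_nonneg_right (hdiff _ (hx i).2 _ (hx 0).2) hc0.le
  have hB : ∀ i, 1 ≤ v (x i / x 0) := by
    intro i
    rw [map_div₀, le_div_iff₀ (v.pos (hx 0).1), one_mul]
    have h3 : v (x 0) ^ d ≤ v (x i) ^ d := by rw [hval _ (hx 0).2, hval _ (hx i).2]
    exact le_of_pow_le_pow_left₀ (by omega) (v.nonneg _) h3
  obtain ⟨g, hg, hg'⟩ := assemble v (κ := 1) le_rfl hv1 hd hζ (by rw [hvd]; norm_num) x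
    (fun i => (hx i).1) one_pos hA hB
  refine ⟨g, hg, fun i j hij => (hg' i j hij).trans (le_of_eq ?_)⟩
  rw [← hexp, hvd]
  simp

end Pool.Agent.MP90787a.MW
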