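import Pool.Agent.Lib.MP_90787a_nt.MW.Defs

/-!
# The approximate parallelogram law for the naive height on `y² = (x - e 0)(x - e 1)(x - e 2)`
-/

namespace Pool.Agent.MP90787a.MW

open Height WeierstrassCurve WeierstrassCurve.Affine WeierstrassCurve.Affine.Point

section Curve

variable {K : Type*} [Field K] (e : Fin 3 → K)

theorem We_a1 : (We e).a₁ = 0 := rfl
theorem We_a2 : (We e).a₂ = -(e 0 + e 1 + e 2) := rfl
theorem We_a3 : (We e).a₃ = 0 := rfl
theorem We_a4 : (We e).a₄ = e 0 * e 1 + e 0 * e 2 + e 1 * e 2 := rfl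
theorem We_a6 : (We e).a₆ = -(e 0 * e 1 * e 2) := rfl

theorem We_b2 : (We e).b₂ = 4 * (We e).a₂ := by
  rw [WeierstrassCurve.b₂, We_a1]
  ring

theorem We_b4 : (We e).b₄ = 2 * (We e).a₄ := by
  rw [WeierstrassCurve.b₄, We_a1]
  ring

theorem We_b6 : (We e).b₆ = 4 * (We e).a₆ := by
  rw [WeierstrassCurve.b₆, We_a3]
  ring

theorem We_b8 : (We e).b₈ = 4 * (We e).a₂ * (We e).a₆ - (We e).a₄ ^ 2 := by
  rw [WeierstrassCurve.b₈, We_a1, We_a3]
  ring

theorem We_Δ : (We e).Δ = 16 * ((e 0 - e 1) * (e 0 - e 2) * (e 1 - e 2)) ^ 2 := by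
  rw [WeierstrassCurve.Δ, We_b2, We_b4, We_b6, We_b8, We_a2, We_a4, We_a6]
  ring

theorem We_isElliptic [CharZero K] (he : Function.Injective e) : (We e).IsElliptic := by
  rw [WeierstrassCurve.isElliptic_iff, We_Δ, isUnit_iff_ne_zero]
  have h01 : e 0 - e 1 ≠ 0 := sub_ne_zero.2 (he.ne (by decide))
  have h02 : e 0 - e 2 ≠ 0 := sub_ne_zero.2 (he.ne (by decide))
  have h12 : e 1 - e 2 ≠ 0 := sub_ne_zero.2 (he.ne (by decide))
  have h16 : (16 : K) ≠ 0 := by norm_num
  exact mul_ne_zero h16 (pow_ne_zero 2 (mul_ne_zero (mul_ne_zero h01 h02) h12))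

theorem We_eq {x y : K} (h : (We e).Nonsingular x y) :
    y ^ 2 = x ^ 3 + (We e).a₂ * x ^ 2 + (We e).a₄ * x + (We e).a₆ := by
  have h1 := (Affine.equation_iff (W := We e) x y).1 h.1
  rw [We_a1, We_a3] at h1
  linear_combination h1

theorem We_negY (x y : K) : (We e).negY x y = -y := by
  rw [Affine.negY, We_a1, We_a3]
  ring

theorem We_addX (x₁ x₂ l : K) : (We e).addX x₁ x₂ l = l ^ 2 - (We e).a₂ - x₁ - x₂ := by
  rw [Affine.addX, We_a1]
  ring

/-- The values of `addSubMap`. -/
theorem addSub_eval (s t u : K) :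
    (fun i ↦ (addSubMap (We e) i).eval (![s, t, u] : Fin 3 → K)) =
      ![s ^ 2 - (We e).b₄ * s * u - (We e).b₆ * t * u - (We e).b₈ * u ^ 2,
        2 * t * s + (We e).b₂ * s * u + (We e).b₄ * t * u + (We e).b₆ * u ^ 2,
        t ^ 2 - 4 * s * u] := by
  funext i
  fin_cases i <;> simp [addSubMap]

variable [DecidableEq K]

theorem addSub_self [CharZero K] (he : Function.Injective e) {x y : K}
    (h : (We e).Nonsingular x y) : ∃ t : K, t ≠ 0 ∧
      (fun i ↦ (addSubMap (We e) i).eval ((some x y h).sym2x (some x y h))) =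
        t • (some x y h + some x y h).sym2x 0 := by
  have hell := We_isElliptic e he
  have heq := We_eq e h
  by_cases hy : y = 0
  · have h1 : some x y h + some x y h = 0 := by
      apply add_self_of_Y_eq
      rw [We_negY, hy, _root_.neg_zero]
    have h2 := addSubMap_ne_zero (We e) (sym2x_ne_zero (some x y h) (some x y h))
    rw [h1, sym2x_zero_zero, sym2x_some_some, addSub_eval] at *
    have h3 : 2 * (x + x) * (x * x) + (We e).b₂ * (x * x) * 1 + (We e).b₄ * (x + x) * 1 +
        (We e).b₆ * 1 ^ 2 = 0 := by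
      rw [We_b2, We_b4, We_b6]
      rw [hy] at heq
      linear_combination (-4 : K) * heq
    have h4 : (x + x) ^ 2 - 4 * (x * x) * 1 = 0 := by ring
    rw [h3, h4] at h2 ⊢
    obtain ⟨t, ht⟩ : ∃ t, t = (x * x) ^ 2 - (We e).b₄ * (x * x) * 1 -
        (We e).b₆ * (x + x) * 1 - (We e).b₈ * 1 ^ 2 := ⟨_, rfl⟩
    rw [← ht] at h2 ⊢
    refine ⟨t, ?_, ?_⟩
    · intro h5
      apply h2
      rw [h5]
      funext i
      fin_cases i <;> simp
    · funext i
      fin_cases i <;> simp
  · have hy2 : y ≠ (We e).negY x y := by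
      rw [We_negY]
      intro h1
      apply hy
      have h2 : 2 * y = 0 := by linear_combination h1
      exact (mul_eq_zero.1 h2).resolve_left two_ne_zero
    rw [add_self_of_Y_ne hy2, sym2x_some_zero, sym2x_some_some, addSub_eval,
      slope_of_Y_ne rfl hy2, We_addX, We_negY, We_a1]
    refine ⟨4 * y ^ 2, mul_ne_zero (by norm_num) (pow_ne_zero 2 hy), ?_⟩
    funext i
    fin_cases i
    · simp only [Fin.zero_eta, Matrix.cons_val_zero, Pi.smul_apply, smul_eq_mul]
      rw [We_b4, We_b6, We_b8]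
      have h3 : y - -y = 2 * y := by ring
      rw [h3]
      field_simp
      rw [heq]
      ring
    · simp only [Fin.mk_one, Matrix.cons_val_one, Pi.smul_apply, smul_eq_mul, Matrix.cons_val_zero]
      rw [We_b2, We_b4, We_b6]
      linear_combination (-4 : K) * heq
    · simp
      ring

theorem addSub_smul [CharZero K] (he : Function.Injective e) (P Q : (We e).Point) :
    ∃ t : K, t ≠ 0 ∧ (fun i ↦ (addSubMap (We e) i).eval (P.sym2x Q)) =
      t • (P + Q).sym2x (P - Q) := by
  have hneg : ∀ P Q : (We e).Point,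
      (∃ t : K, t ≠ 0 ∧ (fun i ↦ (addSubMap (We e) i).eval (P.sym2x Q)) =
        t • (P + Q).sym2x (P - Q)) →
      (∃ t : K, t ≠ 0 ∧ (fun i ↦ (addSubMap (We e) i).eval (P.sym2x (-Q))) =
        t • (P + -Q).sym2x (P - -Q)) := by
    intro P Q h
    rw [sym2x_neg_right, sub_neg_eq_add, ← sub_eq_add_neg, sym2x_comm (P - Q)]
    exact h
  match P, Q with
  | 0, 0 =>
    refine ⟨1, one_ne_zero, ?_⟩
    rw [sub_zero, add_zero, sym2x_zero_zero, addSub_eval, one_smul]
    funext i
    fin_cases i <;> simp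
  | 0, .some x y h =>
    refine ⟨1, one_ne_zero, ?_⟩
    rw [zero_add, zero_sub, sym2x_neg_right, sym2x_some_some, sym2x_zero_some, addSub_eval,
      one_smul]
    funext i
    fin_cases i
    · simp
      ring
    · simp
      ring
    · simp
  | .some x y h, 0 =>
    refine ⟨1, one_ne_zero, ?_⟩
    rw [sub_zero, add_zero, sym2x_some_some, sym2x_some_zero, addSub_eval, one_smul]
    funext i
    fin_cases i
    · simp
      ring
    · simp
      ring
    · simp
  | .some x y h, .some x' y' h' =>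
    by_cases hx : x = x'
    · rcases X_eq_iff.1 hx with h1 | h1
      · rw [h1, sub_self]
        exact addSub_self e he h'
      · rw [← neg_eq_iff_eq_neg] at h1
        have h2 : Point.some x' y' h' = -Point.some x y h := h1.symm
        rw [h2]
        apply hneg
        rw [sub_self]
        exact addSub_self e he h
    · rw [sub_eq_add_neg, neg_some, add_of_X_ne hx, add_of_X_ne hx, sym2x_some_some,
        sym2x_some_some, addSub_eval, slope_of_X_ne hx, slope_of_X_ne hx, We_addX, We_addX,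
        We_negY]
      have hxx : x - x' ≠ 0 := sub_ne_zero.2 hx
      have heq := We_eq e h
      have heq' := We_eq e h'
      refine ⟨(x - x') ^ 2, pow_ne_zero 2 hxx, ?_⟩
      funext i
      fin_cases i
      · simp only [Fin.zero_eta, Matrix.cons_val_zero, Pi.smul_apply, smul_eq_mul]
        rw [We_b4, We_b6, We_b8]
        obtain ⟨a, ha⟩ : ∃ a, a = (We e).a₂ := ⟨_, rfl⟩
        obtain ⟨b, hb⟩ : ∃ b, b = (We e).a₄ := ⟨_, rfl⟩
        obtain ⟨c, hc⟩ : ∃ c, c = (We e).a₆ := ⟨_, rfl⟩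
        rw [← ha, ← hb, ← hc] at heq heq' ⊢
        field_simp
        linear_combination (-((y ^ 2 - y' ^ 2) + ((x ^ 3 + a * x ^ 2 + b * x + c) -
          (x' ^ 3 + a * x' ^ 2 + b * x' + c))) + 2 * (a + x + x') * (x - x') ^ 2) * heq +
          (((y ^ 2 - y' ^ 2) + ((x ^ 3 + a * x ^ 2 + b * x + c) -
          (x' ^ 3 + a * x' ^ 2 + b * x' + c))) + 2 * (a + x + x') * (x - x') ^ 2) * heq'
      · simp only [Fin.mk_one, Matrix.cons_val_one, Pi.smul_apply, smul_eq_mul,
          Matrix.cons_val_zero]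
        rw [We_b2, We_b4, We_b6]
        field_simp
        linear_combination (-2 : K) * heq - 2 * heq'
      · simp
        ring

end Curve

theorem parallelogram {K : Type*} [Field K] [CharZero K] [AdmissibleAbsValues K] [DecidableEq K]
    (e : Fin 3 → K) (he : Function.Injective e) :
    ∃ C : ℝ, ∀ P Q : (We e).Point,
      |logHeight (P + Q).xRep + logHeight (P - Q).xRep -
        2 * (logHeight P.xRep + logHeight Q.xRep)| ≤ C := by
  have hell := We_isElliptic e he
  obtain ⟨C₁, h₁⟩ := abs_logHeight_sym2_sub_le K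
  obtain ⟨C₂, h₂⟩ := abs_logHeight_addSubMap_sub_two_mul_logHeight_le (We e)
  have hs : ∀ P Q : (We e).Point,
      |logHeight (P.sym2x Q) - (logHeight P.xRep + logHeight Q.xRep)| ≤ C₁ := by
    intro P Q
    have e1 : ∀ P : (We e).Point, ![P.xRep 0, P.xRep 1] = P.xRep := by
      intro P
      funext i
      fin_cases i <;> rfl
    have h3 := @h₁ (P.xRep 0) (P.xRep 1) (Q.xRep 0) (Q.xRep 1) (by
      rw [e1]
      exact xRep_ne_zero P) (by
      rw [e1]
      exact xRep_ne_zero Q)
    rw [e1, e1] at h3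
    exact h3
  refine ⟨3 * C₁ + C₂, fun P Q => ?_⟩
  obtain ⟨t, ht, h3⟩ := addSub_smul e he P Q
  have h4 := h₂ (P.sym2x Q)
  rw [h3, logHeight_smul_eq_logHeight _ ht] at h4
  have h5 := hs P Q
  have h6 := hs (P + Q) (P - Q)
  rw [abs_le] at h4 h5 h6 ⊢
  constructor <;> linarith [h4.1, h4.2, h5.1, h5.2, h6.1, h6.2]

end Pool.Agent.MP90787a.MW
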