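import Pool.Agent.Lib.MP_90787a_nt.MW.Defs

/-!
# Finiteness of the Selmer group `K(S, q)` and adjunction of roots
-/

namespace Pool.Agent.MP90787a.MW

open Height IsDedekindDomain NumberField Polynomial

universe u

/-- In a Dedekind domain an element all of whose valuations are divisible by `q` generates the
`q`-th power of an ideal. -/
theorem exists_span_eq_pow {R : Type*} [CommRing R] [IsDedekindDomain R] (q : ℕ) (hq : 0 < q)
    (a : R) (ha : a ≠ 0)
    (h : ∀ v : HeightOneSpectrum R,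
      q ∣ (Associates.mk v.asIdeal).count (Associates.mk (Ideal.span {a} : Ideal R)).factors) :
    ∃ I : Ideal R, I ≠ ⊥ ∧ Ideal.span {a} = I ^ q := by
  classical
  have hI : (Ideal.span {a} : Ideal R) ≠ 0 := by
    simpa [Ideal.zero_eq_bot, Ideal.span_singleton_eq_bot] using ha
  set c : HeightOneSpectrum R → ℕ := fun v =>
    (Associates.mk v.asIdeal).count (Associates.mk (Ideal.span {a} : Ideal R)).factors with hc
  choose m hm using h
  have hfin : {v | c v ≠ 0}.Finite := by
    have h1 := Associates.finite_factors hI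
    rw [Filter.eventually_cofinite] at h1
    refine h1.subset ?_
    intro v hv
    simpa using hv
  have hsup : (Function.mulSupport fun v : HeightOneSpectrum R => v.asIdeal ^ m v).Finite := by
    refine hfin.subset ?_
    intro v hv hcv
    apply hv
    have : q * m v = 0 := by rw [← hm v]; exact hcv
    have hm0 : m v = 0 := by
      rcases Nat.mul_eq_zero.mp this with h | h
      · omega
      · exact h
    simp [hm0]
  refine ⟨∏ᶠ v : HeightOneSpectrum R, v.asIdeal ^ m v, ?_, ?_⟩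
  · rw [finprod_eq_prod_of_mulSupport_toFinset_subset _ hsup (Finset.Subset.refl _)]
    rw [← Ideal.zero_eq_bot]
    refine Finset.prod_ne_zero_iff.mpr ?_
    intro v _
    exact pow_ne_zero _ v.ne_bot
  · rw [finprod_pow hsup]
    conv_lhs => rw [← Ideal.finprod_heightOneSpectrum_factorization hI]
    refine finprod_congr ?_
    intro v
    rw [HeightOneSpectrum.maxPowDividing, ← pow_mul, mul_comm (m v) q, ← hm v]

/-- From the divisibility of the valuation to the divisibility of the exponent. -/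
theorem dvd_count {R : Type*} [CommRing R] [IsDedekindDomain R] {K : Type*} [Field K] [Algebra R K]
    [IsFractionRing R K] (q : ℕ) (a : R) (ha : a ≠ 0) (v : HeightOneSpectrum R)
    (h : ∃ g : WithZero (Multiplicative ℤ), v.valuation K (algebraMap R K a) = g ^ q) :
    q ∣ (Associates.mk v.asIdeal).count (Associates.mk (Ideal.span {a} : Ideal R)).factors := by
  classical
  obtain ⟨g, hg⟩ := h
  rw [HeightOneSpectrum.valuation_of_algebraMap, HeightOneSpectrum.intValuation_if_neg _ ha] at hg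
  rcases Nat.eq_zero_or_pos q with hq | hq
  · subst hq
    rw [pow_zero] at hg
    rw [← WithZero.exp_zero] at hg
    have := WithZero.exp_injective hg
    simp only [neg_eq_zero, Int.natCast_eq_zero] at this
    rw [this]
  · have hg0 : g ≠ 0 := by
      intro h0
      rw [h0, zero_pow hq.ne'] at hg
      exact WithZero.exp_ne_zero hg
    rw [← WithZero.exp_log hg0, ← WithZero.exp_nsmul] at hg
    have := WithZero.exp_injective hg
    have h2 : ((Associates.mk v.asIdeal).count
        (Associates.mk (Ideal.span {a} : Ideal R)).factors : ℤ) = q * (- WithZero.log g) := by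
      rw [nsmul_eq_mul] at this
      linarith
    exact Int.natCast_dvd_natCast.mp ⟨_, h2⟩

/-- The units of a number field modulo `q`-th powers. -/
theorem units_reps (K : Type u) [Field K] [NumberField K] (q : ℕ) (hq : 0 < q) :
    ∃ T : Set (𝓞 K)ˣ, T.Finite ∧ ∀ u : (𝓞 K)ˣ, ∃ t ∈ T, ∃ w : (𝓞 K)ˣ, u = t * w ^ q := by
  classical
  have hFG : Group.FG (𝓞 K)ˣ := by
    rw [GroupFG.iff_add_fg]
    exact Module.Finite.iff_addGroup_fg.mp inferInstance
  set N : Subgroup (𝓞 K)ˣ := (powMonoidHom q : (𝓞 K)ˣ →* (𝓞 K)ˣ).range with hN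
  have htor : IsMulTorsion ((𝓞 K)ˣ ⧸ N) := by
    intro x
    obtain ⟨y, rfl⟩ := QuotientGroup.mk_surjective x
    rw [isOfFinOrder_iff_pow_eq_one]
    refine ⟨q, hq, ?_⟩
    rw [← QuotientGroup.mk_pow, QuotientGroup.eq_one_iff]
    exact ⟨y, rfl⟩
  have hfin : Finite ((𝓞 K)ˣ ⧸ N) := CommGroup.finite_of_fg_isMulTorsion _ htor
  refine ⟨Set.range (fun x : (𝓞 K)ˣ ⧸ N => Quotient.out x), Set.finite_range _, ?_⟩
  intro u
  refine ⟨_, ⟨(u : (𝓞 K)ˣ ⧸ N), rfl⟩, ?_⟩
  obtain ⟨w, hw⟩ : (Quotient.out (u : (𝓞 K)ˣ ⧸ N))⁻¹ * u ∈ N := by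
    rw [← QuotientGroup.eq]
    exact Quotient.out_eq _
  refine ⟨w, ?_⟩
  have hw' : w ^ q = (Quotient.out (u : (𝓞 K)ˣ ⧸ N))⁻¹ * u := hw
  rw [hw']
  group

/-- The case of integral elements and of the empty set. -/
theorem selmer_int (K : Type u) [Field K] [NumberField K] (q : ℕ) (hq : 0 < q) :
    ∃ T : Set K, T.Finite ∧ (∀ f ∈ T, f ≠ 0) ∧ ∀ a : 𝓞 K, a ≠ 0 →
      (∀ v : HeightOneSpectrum (𝓞 K), ∃ g : WithZero (Multiplicative ℤ),
        v.valuation K (algebraMap (𝓞 K) K a) = g ^ q) →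
      ∃ f ∈ T, ∃ b : K, b ≠ 0 ∧ algebraMap (𝓞 K) K a = f * b ^ q := by
  classical
  obtain ⟨U, hU, hUrep⟩ := units_reps K q hq
  -- for every class choose, if there is one, an element
  let Good : ClassGroup (𝓞 K) → 𝓞 K → Prop := fun C x =>
    x ≠ 0 ∧ ∃ I : nonZeroDivisors (Ideal (𝓞 K)), Ideal.span {x} = (I : Ideal (𝓞 K)) ^ q ∧
      ClassGroup.mk0 I = C
  let r : ClassGroup (𝓞 K) → 𝓞 K := fun C => if h : ∃ x, Good C x then h.choose else 1
  have hr : ∀ C, (∃ x, Good C x) → Good C (r C) := by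
    intro C h
    simp only [r, dif_pos h]
    exact h.choose_spec
  have hr0 : ∀ C, r C ≠ 0 := by
    intro C
    by_cases h : ∃ x, Good C x
    · exact (hr C h).1
    · simp only [r, dif_neg h]
      exact one_ne_zero
  refine ⟨Set.image2 (fun (t : (𝓞 K)ˣ) (C : ClassGroup (𝓞 K)) =>
    algebraMap (𝓞 K) K (t * r C)) U Set.univ, hU.image2 _ Set.finite_univ, ?_, ?_⟩
  · rintro f ⟨t, _, C, _, rfl⟩
    simp only [ne_eq, map_eq_zero_iff _ (FaithfulSMul.algebraMap_injective (𝓞 K) K)]
    exact mul_ne_zero t.ne_zero (hr0 C)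
  · intro a ha hval
    obtain ⟨I, hI, hspan⟩ := exists_span_eq_pow q hq a ha
      (fun v => dvd_count (K := K) q a ha v (hval v))
    let I' : nonZeroDivisors (Ideal (𝓞 K)) := ⟨I, mem_nonZeroDivisors_iff_ne_zero.mpr hI⟩
    have hgood : Good (ClassGroup.mk0 I') a := ⟨ha, I', hspan, rfl⟩
    obtain ⟨hc0, J, hJ, hJI⟩ := hr (ClassGroup.mk0 I') ⟨a, hgood⟩
    obtain ⟨x, y, hx, hy, hxy⟩ := ClassGroup.mk0_eq_mk0_iff.mp hJI
    -- `x J = y I`
    have h1 : Ideal.span {x ^ q * r (ClassGroup.mk0 I')} = Ideal.span {y ^ q * a} := by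
      rw [← Ideal.span_singleton_mul_span_singleton, ← Ideal.span_singleton_mul_span_singleton,
        ← Ideal.span_singleton_pow, ← Ideal.span_singleton_pow, hJ, hspan, ← mul_pow, ← mul_pow]
      rw [hxy]
    rw [Ideal.span_singleton_eq_span_singleton] at h1
    obtain ⟨u, hu⟩ := h1
    obtain ⟨t, ht, w, hw⟩ := hUrep u
    refine ⟨_, ⟨t, ht, ClassGroup.mk0 I', Set.mem_univ _, rfl⟩,
      algebraMap (𝓞 K) K (x * w) / algebraMap (𝓞 K) K y, ?_, ?_⟩
    · refine div_ne_zero ?_ ?_
      · simp only [ne_eq, map_eq_zero_iff _ (FaithfulSMul.algebraMap_injective (𝓞 K) K)]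
        exact mul_ne_zero hx w.ne_zero
      · simp only [ne_eq, map_eq_zero_iff _ (FaithfulSMul.algebraMap_injective (𝓞 K) K)]
        exact hy
    · have hyK : algebraMap (𝓞 K) K y ≠ 0 := by
        simp only [ne_eq, map_eq_zero_iff _ (FaithfulSMul.algebraMap_injective (𝓞 K) K)]
        exact hy
      rw [div_pow, ← mul_div_assoc, eq_div_iff (pow_ne_zero _ hyK), ← map_pow, ← map_pow,
        ← map_mul, ← map_mul]
      congr 1
      have hu2 : (u : 𝓞 K) = t * w ^ q := by
        rw [hw]; push_cast; ring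
      rw [mul_comm a, ← hu, hu2]
      ring

/-- The case of the empty set. -/
theorem selmer_empty (K : Type u) [Field K] [NumberField K] (q : ℕ) (hq : 0 < q) :
    ∃ T : Set K, T.Finite ∧ (∀ f ∈ T, f ≠ 0) ∧ ∀ a : K, a ≠ 0 →
      (∀ v : HeightOneSpectrum (𝓞 K), ∃ g : WithZero (Multiplicative ℤ),
        v.valuation K a = g ^ q) →
      ∃ f ∈ T, ∃ b : K, b ≠ 0 ∧ a = f * b ^ q := by
  obtain ⟨T, hT, hT0, hrep⟩ := selmer_int K q hq
  refine ⟨T, hT, hT0, ?_⟩
  intro a ha hval
  obtain ⟨x, y, hy, hxy⟩ := IsFractionRing.div_surjective (A := 𝓞 K) a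
  have hy0 : y ≠ 0 := nonZeroDivisors.ne_zero hy
  have hyK : algebraMap (𝓞 K) K y ≠ 0 := by
    simp only [ne_eq, map_eq_zero_iff _ (FaithfulSMul.algebraMap_injective (𝓞 K) K)]
    exact hy0
  have hx0 : x ≠ 0 := by
    rintro rfl
    rw [map_zero, zero_div] at hxy
    exact ha hxy.symm
  obtain ⟨m, rfl⟩ : ∃ m, q = m + 1 := ⟨q - 1, by omega⟩
  have hz : algebraMap (𝓞 K) K (x * y ^ m) = a * algebraMap (𝓞 K) K y ^ (m + 1) := by
    rw [← hxy, map_mul, map_pow, pow_succ]
    field_simp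
  obtain ⟨f, hf, b, hb, hab⟩ := hrep (x * y ^ m) (mul_ne_zero hx0 (pow_ne_zero _ hy0)) (by
    intro v
    obtain ⟨g, hg⟩ := hval v
    refine ⟨g * v.valuation K (algebraMap (𝓞 K) K y), ?_⟩
    rw [hz, map_mul, map_pow, hg, mul_pow])
  refine ⟨f, hf, b / algebraMap (𝓞 K) K y, div_ne_zero hb hyK, ?_⟩
  rw [div_pow, ← mul_div_assoc, eq_div_iff (pow_ne_zero _ hyK), ← hz, hab]

theorem selmer_reps (K : Type u) [Field K] [NumberField K] (S : Set (HeightOneSpectrum (𝓞 K)))
    (hS : S.Finite) (q : ℕ) (hq : 0 < q) :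
    ∃ T : Finset K, (∀ f ∈ T, f ≠ 0) ∧ ∀ a : K, a ≠ 0 →
      (∀ v ∉ S, ∃ g : WithZero (Multiplicative ℤ), v.valuation K a = g ^ q) →
      ∃ f ∈ T, ∃ b : K, b ≠ 0 ∧ a = f * b ^ q := by
  classical
  obtain ⟨T, hT, hT0, hrep⟩ := selmer_empty K q hq
  have : Finite S := hS
  have : NeZero q := ⟨hq.ne'⟩
  let res : K → (S → ZMod q) := fun a v => ((WithZero.log (v.1.valuation K a) : ℤ) : ZMod q)
  let Good : (S → ZMod q) → K → Prop := fun ρ a => a ≠ 0 ∧
    (∀ v ∉ S, ∃ g : WithZero (Multiplicative ℤ), v.valuation K a = g ^ q) ∧ res a = ρ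
  let r : (S → ZMod q) → K := fun ρ => if h : ∃ x, Good ρ x then h.choose else 1
  have hr : ∀ ρ, (∃ x, Good ρ x) → Good ρ (r ρ) := by
    intro ρ h
    simp only [r, dif_pos h]
    exact h.choose_spec
  have hr0 : ∀ ρ, r ρ ≠ 0 := by
    intro ρ
    by_cases h : ∃ x, Good ρ x
    · exact (hr ρ h).1
    · simp only [r, dif_neg h]
      exact one_ne_zero
  have hfin : (Set.image2 (fun (t : K) (ρ : S → ZMod q) => t * r ρ) T Set.univ).Finite :=
    hT.image2 _ Set.finite_univ
  refine ⟨hfin.toFinset, ?_, ?_⟩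
  · intro f hf
    rw [Set.Finite.mem_toFinset] at hf
    obtain ⟨t, ht, ρ, _, rfl⟩ := hf
    exact mul_ne_zero (hT0 t ht) (hr0 ρ)
  · intro a ha hval
    have hgood : Good (res a) a := ⟨ha, hval, rfl⟩
    obtain ⟨hc0, hcval, hcres⟩ := hr (res a) ⟨a, hgood⟩
    obtain ⟨f, hf, b, hb, hab⟩ := hrep (a / r (res a)) (div_ne_zero ha hc0) (by
      intro v
      by_cases hv : v ∈ S
      · have h1 := congrFun hcres ⟨v, hv⟩
        simp only [res] at h1
        have h2 : (q : ℤ) ∣ WithZero.log (v.valuation K a) -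
            WithZero.log (v.valuation K (r (res a))) := by
          rw [← ZMod.intCast_zmod_eq_zero_iff_dvd] 
          push_cast
          rw [sub_eq_zero]
          exact h1.symm
        obtain ⟨k, hk⟩ := h2
        have hva : v.valuation K a ≠ 0 := by simpa using ha
        have hvc : v.valuation K (r (res a)) ≠ 0 := by simpa using hc0
        refine ⟨WithZero.exp k, ?_⟩
        rw [map_div₀, ← WithZero.exp_log hva, ← WithZero.exp_log hvc, ← WithZero.exp_sub, hk,
          ← WithZero.exp_nsmul, nsmul_eq_mul]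
      · obtain ⟨g, hg⟩ := hval v hv
        obtain ⟨g', hg'⟩ := hcval v hv
        exact ⟨g / g', by rw [map_div₀, hg, hg', div_pow]⟩)
    refine ⟨f * r (res a), ?_, b, hb, ?_⟩
    · rw [Set.Finite.mem_toFinset]
      exact ⟨f, hf, res a, Set.mem_univ _, rfl⟩
    · rw [div_eq_iff hc0] at hab
      exact hab.trans (by ring)

/-- A `q`-th root in a field in which a multiple of `X ^ q - f` splits. -/
theorem root_of_splits {K L : Type*} [Field K] [Field L] [Algebra K L] (q : ℕ) (hq : 0 < q)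
    (P : K[X]) (hP0 : P ≠ 0) (hP1 : (P.map (algebraMap K L)).Splits) (f : K)
    (hdvd : (X ^ q - C f) ∣ P) : ∃ b : L, b ^ q = algebraMap K L f := by
  have hne : P.map (algebraMap K L) ≠ 0 := by
    rw [Polynomial.map_ne_zero_iff (algebraMap K L).injective]
    exact hP0
  have h2 : ((X ^ q - C f : K[X]).map (algebraMap K L)) = X ^ q - C (algebraMap K L f) := by
    rw [Polynomial.map_sub, Polynomial.map_pow, Polynomial.map_X, Polynomial.map_C]
  have h1 : ((X ^ q - C f : K[X]).map (algebraMap K L)) ∣ P.map (algebraMap K L) :=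
    Polynomial.map_dvd _ hdvd
  rw [h2] at h1
  have hs : (X ^ q - C (algebraMap K L f)).Splits := hP1.of_dvd hne h1
  have hdeg : (X ^ q - C (algebraMap K L f)).degree ≠ 0 := by
    rw [degree_X_pow_sub_C hq]
    exact_mod_cast hq.ne'
  obtain ⟨b, hb⟩ := hs.exists_eval_eq_zero hdeg
  refine ⟨b, ?_⟩
  rw [Polynomial.eval_sub, Polynomial.eval_pow, Polynomial.eval_X, Polynomial.eval_C,
    sub_eq_zero] at hb
  exact hb

/-- A primitive root of unity in a field in which a multiple of `X ^ m - 1` splits. -/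
theorem primitive_of_splits {K L : Type*} [Field K] [Field L] [Algebra K L] [CharZero L] (m : ℕ)
    (hm : 0 < m) (P : K[X]) (hP0 : P ≠ 0) (hP1 : (P.map (algebraMap K L)).Splits)
    (hdvd : (X ^ m - 1) ∣ P) : ∃ ζ : L, IsPrimitiveRoot ζ m := by
  have hne : P.map (algebraMap K L) ≠ 0 := by
    rw [Polynomial.map_ne_zero_iff (algebraMap K L).injective]
    exact hP0
  have h2 : ((X ^ m - 1 : K[X]).map (algebraMap K L)) = X ^ m - 1 := by
    rw [Polynomial.map_sub, Polynomial.map_pow, Polynomial.map_X, Polynomial.map_one]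
  have h1 : ((X ^ m - 1 : K[X]).map (algebraMap K L)) ∣ P.map (algebraMap K L) :=
    Polynomial.map_dvd _ hdvd
  rw [h2] at h1
  have : NeZero ((m : ℕ) : L) := ⟨by exact_mod_cast hm.ne'⟩
  have hcyc : (cyclotomic m L).Splits :=
    hP1.of_dvd hne (dvd_trans (cyclotomic.dvd_X_pow_sub_one m L) h1)
  have hdeg : (cyclotomic m L).degree ≠ 0 := by
    rw [degree_cyclotomic]
    exact_mod_cast (Nat.totient_pos.mpr hm).ne'
  obtain ⟨ζ, hζ⟩ := hcyc.exists_eval_eq_zero hdeg
  exact ⟨ζ, isRoot_cyclotomic_iff.mp hζ⟩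

theorem exists_root_field (K : Type u) [Field K] [NumberField K] (T : Finset K) (q m : ℕ)
    (hq : 0 < q) (hm : 0 < m) :
    ∃ (L : Type u) (_ : Field L) (_ : NumberField L) (_ : Algebra K L),
      (∀ f ∈ T, ∃ b : L, b ^ q = algebraMap K L f) ∧ ∃ ζ : L, IsPrimitiveRoot ζ m := by
  classical
  obtain ⟨P, hP0, hP1, hP2⟩ : ∃ P : K[X], P ≠ 0 ∧ (∀ f ∈ T, (X ^ q - C f) ∣ P) ∧
      (X ^ m - 1) ∣ P := by
    refine ⟨(∏ f ∈ T, (X ^ q - C f)) * (X ^ m - 1), ?_, ?_, dvd_mul_left _ _⟩
    · refine mul_ne_zero ?_ ?_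
      · refine Finset.prod_ne_zero_iff.mpr ?_
        intro f _
        exact (monic_X_pow_sub_C f hq.ne').ne_zero
      · have := monic_X_pow_sub_C (1 : K) hm.ne'
        rw [C_1] at this
        exact this.ne_zero
    · intro f hf
      exact (Finset.dvd_prod_of_mem (fun f => (X ^ q - C f : K[X])) hf).trans (dvd_mul_right _ _)
  have hchar : CharZero (SplittingField P) :=
    charZero_of_injective_algebraMap (algebraMap K (SplittingField P)).injective
  have hnf : NumberField (SplittingField P) := NumberField.of_module_finite K _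
  have hs : (P.map (algebraMap K (SplittingField P))).Splits := SplittingField.splits P
  exact ⟨SplittingField P, inferInstance, hnf, inferInstance,
    fun f hf => root_of_splits q hq P hP0 hs f (hP1 f hf),
    primitive_of_splits m hm P hP0 hs hP2⟩

end Pool.Agent.MP90787a.MW
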